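import Pool.Agent.Helper6.IC.Phi

/-!
# Programs for tree evaluation which inspect few cells: the bound for the number of good instances
-/

namespace Pool.Agent.Helper6.IC

open Pool.Agent.Helper5.TreeExp Pool.Agent.Helper18.IC

variable {d k : ℕ}

/-- The observations from the `j`-th state of a run. -/
theorem obs_shift {V : Type} {N : ℕ} (B : BP V k N) (I : V → Fin k) (q : Fin N) (j : ℕ) :
    obs B I ((B.step I)^[j] q) = fun m => obs B I q (m + j) := by
  funext m
  unfold obs
  rw [Function.iterate_add_apply]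

/-- The instances for which the program outputs the image of the value of the root under `φ` and inspects
at most `T` entries of each table. -/
def GoodPhi {n N : ℕ} (T : ℕ) (φ : Fin k → Fin k) (B : BP (Var d k n) k N) (I : Var d k n → Fin k) :
    Prop :=
  (∃ m, obs B I B.start m = Sum.inr (φ (valI n I))) ∧ Few (obs B I B.start) T n Sum.inl

theorem good_cases {n N T : ℕ} (hn : 1 ≤ n) (φ : Fin k → Fin k) (B : BP (Var d k n) k N)
    (I : Var d k n → Fin k) (h : GoodPhi T φ B I) :
    Held (obs B I B.start) (Sum.inr (φ (valI n I))) (Sum.inl (rv n I)) ∨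
    (∃ (x : NF d n) (i : IdxT T (selF x)), Cond (obs B I B.start) Sum.inl (selF x) I ∧
      IdxOK (obs B I B.start) T Sum.inl (selF x) I i) ∨
    ∃ (q : Fin N) (x : NB d n) (i : IdxT T (selB x)), Cond (obs B I q) Sum.inl (selB x) I ∧
      IdxOK (obs B I q) T Sum.inl (selB x) I i := by
  obtain ⟨⟨m, hm⟩, hf⟩ := h
  set o := obs B I B.start with ho
  by_cases h1 : Held o (Sum.inr (φ (valI n I))) (Sum.inl (rv n I))
  · exact Or.inl h1
  · right
    by_cases h2 : Open o n Sum.inl I (Sum.inr (φ (valI n I)))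
    · right
      -- a step at which the last open path is closed
      have h3 : ∃ j, j < m ∧ Open (fun i => o (i + j)) n Sum.inl I (Sum.inr (φ (valI n I))) ∧
          ¬ Open (fun i => o (i + (j + 1))) n Sum.inl I (Sum.inr (φ (valI n I))) := by
        by_contra hc
        push Not at hc
        have h4 : ∀ j, j ≤ m → Open (fun i => o (i + j)) n Sum.inl I (Sum.inr (φ (valI n I))) := by
          intro j
          induction j with
          | zero => exact fun _ => h2
          | succ j ih => exact fun hj => hc j (by omega) (ih (by omega))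
        have h5 := h4 m le_rfl
        have h6 : ¬ Held (fun i => o (i + m)) (Sum.inr (φ (valI n I))) (Sum.inl (rv n I)) := by
          obtain ⟨n, rfl⟩ : ∃ n', n = n' + 1 := ⟨n - 1, by omega⟩
          exact h5.1
        exact h6 (held_first (by simpa using hm) (by simp))
      obtain ⟨j, hjm, hj1, hj2⟩ := h3
      have e1 : (fun i => (fun i => o (i + j)) (i + 1)) = fun i => o (i + (j + 1)) := by
        funext i
        change o (i + 1 + j) = o (i + (j + 1))
        rw [show i + 1 + j = i + (j + 1) by omega]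
      obtain ⟨x, hx1, hx2⟩ := claimB n hn Sum.inl Sum.inl_injective I (Sum.inr (φ (valI n I)))
        (o := fun i => o (i + j)) ⟨m - j - 1, by
          rw [show m - j - 1 + 1 + j = m by omega]
          exact hm⟩ hj1 (by
          rw [e1]
          exact hj2)
      rw [e1] at hx1 hx2
      have hf' : Few (fun i => o (i + (j + 1))) T n Sum.inl := few_mono (fun i => ⟨_, rfl⟩) _ _ hf
      obtain ⟨i, hi⟩ := idx_exists (selB x) Sum.inl Sum.inl_injective I hf' hx2
      refine ⟨(B.step I)^[j + 1] B.start, x, i, ?_⟩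
      rw [obs_shift]
      exact ⟨hx1, hi⟩
    · left
      obtain ⟨x, hx1, hx2⟩ := claimA n Sum.inl I (Sum.inr (φ (valI n I))) ⟨m, hm⟩ h1 h2
      obtain ⟨i, hi⟩ := idx_exists (selF x) Sum.inl Sum.inl_injective I hf hx2
      exact ⟨x, i, hx1, hi⟩

theorem main_bound_phi {n N T m : ℕ} (hd : 2 ≤ d) (hk : 1 ≤ k) (hn : 1 ≤ n) (φ : Fin k → Fin k)
    (hφ : ∀ x, Nat.card {y // φ y = x} ≤ m) (B : BP (Var d k n) k N) :
    (Nat.card {I : Var d k n → Fin k // GoodPhi T φ B I} : ℝ) ≤
      (m / (k : ℝ) + (d : ℝ) ^ n * T / (k : ℝ) ^ d +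
        N * (d : ℝ) ^ ((n + 1) ^ 2) * (T : ℝ) ^ n / (k : ℝ) ^ ((d - 1) * n + 1)) *
      Nat.card (Var d k n → Fin k) := by
  classical
  have hk0 : (0 : ℝ) < k := by exact_mod_cast hk
  set X : ℝ := ((Nat.card (Var d k n → Fin k) : ℕ) : ℝ) with hX
  have hX0 : 0 ≤ X := Nat.cast_nonneg _
  have hfinX : Finite (Var d k n → Fin k) := inferInstance
  have hfF : Finite (Σ x : NF d n, IdxT T (selF x)) := inferInstance
  have hfB : Finite (Fin N × Σ x : NB d n, IdxT T (selB x)) := inferInstance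
  have : Fintype (Σ x : NF d n, IdxT T (selF x)) := Fintype.ofFinite _
  have : Fintype (Fin N × Σ x : NB d n, IdxT T (selB x)) := Fintype.ofFinite _
  let P : Unit ⊕ ((Σ x : NF d n, IdxT T (selF x)) ⊕ (Fin N × Σ x : NB d n, IdxT T (selB x))) →
      (Var d k n → Fin k) → Prop := fun w I => match w with
    | Sum.inl _ => Held (obs B I B.start) (Sum.inr (φ (valI n I))) (Sum.inl (rv n I))
    | Sum.inr (Sum.inl z) => Cond (obs B I B.start) Sum.inl (selF z.1) I ∧
        IdxOK (obs B I B.start) T Sum.inl (selF z.1) I z.2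
    | Sum.inr (Sum.inr z) => Cond (obs B I z.1) Sum.inl (selB z.2.1) I ∧
        IdxOK (obs B I z.1) T Sum.inl (selB z.2.1) I z.2.2
  have hcov := cover P (GoodPhi T φ B) (fun I hI => by
    rcases good_cases hn φ B I hI with h | ⟨x, i, h⟩ | ⟨q, x, i, h⟩
    · exact ⟨Sum.inl (), h⟩
    · exact ⟨Sum.inr (Sum.inl ⟨x, i⟩), h⟩
    · exact ⟨Sum.inr (Sum.inr (q, ⟨x, i⟩)), h⟩)
  have hcov' : (Nat.card {I : Var d k n → Fin k // GoodPhi T φ B I} : ℝ) ≤
      ∑ w, (Nat.card {I // P w I} : ℝ) := by exact_mod_cast hcov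
  rw [Fintype.sum_sum_type, Fintype.sum_sum_type] at hcov'
  refine hcov'.trans ?_
  have hroot : (Nat.card {I // P (Sum.inl ()) I} : ℝ) ≤ m * X / k := by
    rw [le_div_iff₀ hk0, hX]
    have h1 : Nat.card {I // P (Sum.inl ()) I} * k ≤ m * Nat.card (Var d k n → Fin k) :=
      root_bound_phi B B.start φ hφ
    exact_mod_cast h1
  have hF : ∀ z : (Σ x : NF d n, IdxT T (selF x)),
      (Nat.card {I // P (Sum.inr (Sum.inl z)) I} : ℝ) ≤ X / (k : ℝ) ^ d := by
    rintro ⟨x, i⟩
    rw [le_div_iff₀ (by positivity), hX]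
    have h1 : Nat.card {I // P (Sum.inr (Sum.inl ⟨x, i⟩)) I} * k ^ (selF x).size ≤
        Nat.card (Var d k n → Fin k) :=
      G_bound B B.start (selF x) (selF_ne_self x) (selF_WF x) i
    rw [selF_size] at h1
    exact_mod_cast h1
  have hB : ∀ z : (Fin N × Σ x : NB d n, IdxT T (selB x)),
      (Nat.card {I // P (Sum.inr (Sum.inr z)) I} : ℝ) ≤ X / (k : ℝ) ^ ((d - 1) * n + 1) := by
    rintro ⟨q, x, i⟩
    rw [le_div_iff₀ (by positivity), hX]
    have h1 : Nat.card {I // P (Sum.inr (Sum.inr (q, ⟨x, i⟩))) I} * k ^ (selB x).size ≤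
        Nat.card (Var d k n → Fin k) :=
      G_bound B q (selB x) (selB_ne_self x) (selB_WF x) i
    have h2 := Nat.pow_le_pow_right hk (selB_size (by omega : 1 ≤ d) x)
    have h3 := (Nat.mul_le_mul_left _ h2).trans h1
    exact_mod_cast h3
  have hcF : ((Fintype.card (Σ x : NF d n, IdxT T (selF x)) : ℕ) : ℝ) ≤ (d : ℝ) ^ n * T := by
    have h1 : Fintype.card (Σ x : NF d n, IdxT T (selF x)) = Nat.card (NF d n) * T := by
      rw [← Nat.card_eq_fintype_card, Nat.card_sigma]
      have h2 : ∀ x : NF d n, Nat.card (IdxT T (selF x)) = T := fun x => by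
        rw [card_idxT, selF_groups, pow_one]
      simp only [h2, Finset.sum_const, Finset.card_univ, smul_eq_mul]
      rw [Nat.card_eq_fintype_card]
    have h2 := card_NF hd n
    have h3 : Nat.card (NF d n) * T ≤ d ^ n * T := Nat.mul_le_mul_right _ (by omega)
    rw [h1]
    exact_mod_cast h3
  have hcB : ((Fintype.card (Fin N × Σ x : NB d n, IdxT T (selB x)) : ℕ) : ℝ) ≤
      N * (d : ℝ) ^ ((n + 1) ^ 2) * (T : ℝ) ^ n := by
    have h1 : Fintype.card (Fin N × Σ x : NB d n, IdxT T (selB x)) =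
        N * (Nat.card (NB d n) * T ^ n) := by
      rw [← Nat.card_eq_fintype_card, Nat.card_prod, Nat.card_fin, Nat.card_sigma]
      have h2 : ∀ x : NB d n, Nat.card (IdxT T (selB x)) = T ^ n := fun x => by
        rw [card_idxT, selB_groups]
      simp only [h2, Finset.sum_const, Finset.card_univ, smul_eq_mul]
      rw [Nat.card_eq_fintype_card]
    have h2 := card_NB hd n
    have h3 : N * (Nat.card (NB d n) * T ^ n) ≤ N * (d ^ ((n + 1) ^ 2) * T ^ n) :=
      Nat.mul_le_mul_left _ (Nat.mul_le_mul_right _ h2)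
    rw [h1]
    calc ((N * (Nat.card (NB d n) * T ^ n) : ℕ) : ℝ) ≤
        ((N * (d ^ ((n + 1) ^ 2) * T ^ n) : ℕ) : ℝ) := by exact_mod_cast h3
      _ = N * (d : ℝ) ^ ((n + 1) ^ 2) * (T : ℝ) ^ n := by
        push_cast
        ring
  have s1 : ∑ w : Unit, (Nat.card {I // P (Sum.inl w) I} : ℝ) ≤ m * X / k := by
    simpa using hroot
  have s2 : ∑ z : (Σ x : NF d n, IdxT T (selF x)),
      (Nat.card {I // P (Sum.inr (Sum.inl z)) I} : ℝ) ≤ (d : ℝ) ^ n * T * (X / (k : ℝ) ^ d) := by
    refine (Finset.sum_le_sum fun z _ => hF z).trans ?_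
    rw [Finset.sum_const, Finset.card_univ, nsmul_eq_mul]
    exact mul_le_mul_of_nonneg_right hcF (by positivity)
  have s3 : ∑ z : (Fin N × Σ x : NB d n, IdxT T (selB x)),
      (Nat.card {I // P (Sum.inr (Sum.inr z)) I} : ℝ) ≤
      N * (d : ℝ) ^ ((n + 1) ^ 2) * (T : ℝ) ^ n * (X / (k : ℝ) ^ ((d - 1) * n + 1)) := by
    refine (Finset.sum_le_sum fun z _ => hB z).trans ?_
    rw [Finset.sum_const, Finset.card_univ, nsmul_eq_mul]
    exact mul_le_mul_of_nonneg_right hcB (by positivity)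
  calc _ ≤ m * X / k + ((d : ℝ) ^ n * T * (X / (k : ℝ) ^ d) +
        N * (d : ℝ) ^ ((n + 1) ^ 2) * (T : ℝ) ^ n * (X / (k : ℝ) ^ ((d - 1) * n + 1))) :=
        add_le_add s1 (add_le_add s2 s3)
    _ = _ := by ring

/-- The instances for which the program finds the value of the root and inspects at most `T` entries of
each table. -/
def Good {n N : ℕ} (T : ℕ) (B : BP (Var d k n) k N) (I : Var d k n → Fin k) : Prop :=
  (∃ m, obs B I B.start m = Sum.inr (valI n I)) ∧ Few (obs B I B.start) T n Sum.inl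

theorem main_bound {n N T : ℕ} (hd : 2 ≤ d) (hk : 1 ≤ k) (hn : 1 ≤ n) (B : BP (Var d k n) k N) :
    (Nat.card {I : Var d k n → Fin k // Good T B I} : ℝ) ≤
      (1 / (k : ℝ) + (d : ℝ) ^ n * T / (k : ℝ) ^ d +
        N * (d : ℝ) ^ ((n + 1) ^ 2) * (T : ℝ) ^ n / (k : ℝ) ^ ((d - 1) * n + 1)) *
      Nat.card (Var d k n → Fin k) := by
  have h := main_bound_phi (T := T) (m := 1) hd hk hn id (fun x => by simp) B
  rw [Nat.cast_one] at h
  exact h

end Pool.Agent.Helper6.IC
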