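import Pool.Agent.Helper6.IC.BDefs

/-!
# Programs for tree evaluation which inspect few cells: the selection of the blocks
-/

namespace Pool.Agent.Helper6.IC

open Pool.Agent.Helper5.TreeExp Pool.Agent.Helper18.IC

variable {d k : ℕ} {W : Type}

theorem held_trans {o : ℕ → W} {a b c : W} (h1 : Held o a b) (h2 : Held o b c) : Held o a c := by
  obtain ⟨m, hm, hm'⟩ := h1
  obtain ⟨l, hl, hl'⟩ := h2
  have h : m < l := by
    by_contra hc
    exact hm' l (by omega) hl
  exact ⟨m, hm, fun j hj => hl' j (by omega)⟩

/-- If `p` is observed and `v` is not held, `v` is observed before `p`. -/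
theorem held_total {o : ℕ → W} {p v : W} (hp : ∃ m, o m = p) (h : ¬ Held o p v) (hpv : v ≠ p) :
    Held o v p := by
  classical
  set m := Nat.find hp with hm
  have h1 : o m = p := Nat.find_spec hp
  have h2 : ∀ j < m, o j ≠ p := fun j hj => Nat.find_min hp hj
  by_contra hc
  refine h ⟨m, h1, fun j hj hjv => ?_⟩
  have hjm : j < m := by
    rcases Nat.lt_or_eq_of_le hj with h3 | h3
    · exact h3
    · exfalso
      rw [h3, h1] at hjv
      exact hpv hjv.symm
  exact hc ⟨j, hjv, fun i hi => h2 i (by omega)⟩

theorem bef_trans {o : ℕ → W} {q p : W} (h : Held o q p) : {n : ℕ} → (s : BSel d n) →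
    (e : Var d k n → W) → (I : Var d k n → Fin k) → Bef o q e s I → Bef o p e s I
  | _, .empty, _, _, _ => trivial
  | _, .self, _, _, _ => trivial
  | _ + 2, .node _ s, e, I, hb =>
    ⟨fun hg => held_trans (hb.1 hg) h, fun i c =>
      bef_trans h (s i c) (e2 e i c) (sub2 I i c) (hb.2 i c)⟩

/-- There is a path in steps of two levels from the root of the subtree to the level `0` or `1` without held
nodes; `p` is the right observation of the node above. -/
def Open2 (o : ℕ → W) : (n : ℕ) → (Var d k n → W) → (Var d k n → Fin k) → W → Prop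
  | 0, e, I, p => ¬ Held o p (e (rv 0 I))
  | 1, e, I, p => ¬ Held o p (e (rv 1 I))
  | n + 2, e, I, p => ¬ Held o p (e (rv (n + 2) I)) ∧
      ∃ i c, Open2 o n (e2 e i c) (sub2 I i c) (e (rv (n + 2) I))

theorem open2_not_held {o : ℕ → W} : {n : ℕ} → {e : Var d k n → W} → {I : Var d k n → Fin k} →
    {p : W} → Open2 o n e I p → ¬ Held o p (e (rv n I))
  | 0, _, _, _, h => h
  | 1, _, _, _, h => h
  | _ + 2, _, _, _, h => h.1

/-- The block roots. -/
def NF2 (d : ℕ) : ℕ → Type
  | 0 => Empty
  | 1 => Empty
  | n + 2 => Option ((Fin d × Fin d) × NF2 d n)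

/-- One grandchild for each child of a block root. -/
def selF2 (z : Fin d) : {n : ℕ} → NF2 d n → BSel d n
  | 0, x => x.elim
  | 1, x => x.elim
  | _ + 2, none => .node true (fun _ c => if c = z then .self else .empty)
  | _ + 2, some y => .node false (fun i c => if (i, c) = y.1 then selF2 z y.2 else .empty)

/-- The choices along a path. -/
def NB2 (d : ℕ) : ℕ → Type
  | 0 => Empty
  | 1 => Empty
  | 2 => Unit
  | 3 => Unit
  | n + 4 => (Fin d × Fin d) × NB2 d (n + 2) × Option (Fin d × NF2 d (n + 2))

/-- The chosen child of the child `i`, if the path goes to the grandchild `p`. -/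
def ch (z : Fin d) (sb : Fin d → Fin d) (p : Fin d × Fin d) (i : Fin d) : Fin d :=
  if i = p.1 then sb p.2 else z

theorem ch_ne {z : Fin d} {sb : Fin d → Fin d} (hsb : ∀ c, sb c ≠ c) (p : Fin d × Fin d) (i : Fin d) :
    (i, ch z sb p i) ≠ p := by
  intro h
  have h1 : i = p.1 := congrArg Prod.fst h
  have h2 : ch z sb p i = p.2 := congrArg Prod.snd h
  unfold ch at h2
  rw [if_pos h1] at h2
  exact hsb _ h2

/-- The sets for a path. -/
def selB2 (z : Fin d) (sb : Fin d → Fin d) : {n : ℕ} → NB2 d n → BSel d n
  | 0, x => x.elim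
  | 1, x => x.elim
  | 2, _ => .node true (fun _ c => if c = z then .self else .empty)
  | 3, _ => .node true (fun _ c => if c = z then .self else .empty)
  | _ + 4, (p, x, none) => .node true (fun i c => if (i, c) = p then selB2 z sb x else
      if c = ch z sb p i then .self else .empty)
  | _ + 4, (p, x, some y) => .node false (fun i c => if (i, c) = p then selB2 z sb x else
      if (i, c) = (y.1, ch z sb p y.1) then selF2 z y.2 else .empty)

theorem claimA2 {o : ℕ → W} (z : Fin d) : (n : ℕ) → (e : Var d k n → W) → Function.Injective e →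
    (I : Var d k n → Fin k) → (p : W) → (∀ u, e u ≠ p) → (∃ m, o m = p) →
    ¬ Held o p (e (rv n I)) → ¬ Open2 o n e I p →
    ∃ x : NF2 d n, BCond o e (selF2 z x) I ∧ Bef o p e (selF2 z x) I
  | 0, _, _, _, _, _, _, h1, h2 => absurd h1 h2
  | 1, _, _, _, _, _, _, h1, h2 => absurd h1 h2
  | n + 2, e, he, I, p, hep, hp, h1, h2 => by
    have hs := seen_of_not_held hp h1
    have hrp : Held o (e (rv (n + 2) I)) p := held_total hp h1 (hep _)
    have h3 : ∀ i c, ¬ Open2 o n (e2 e i c) (sub2 I i c) (e (rv (n + 2) I)) :=
      fun i c hc => h2 ⟨h1, i, c, hc⟩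
    by_cases h4 : ∀ i c, Held o (e (rv (n + 2) I)) (e2 e i c (rv n (sub2 I i c)))
    · refine ⟨none, ⟨fun i c _ => h4 i c, fun _ i c => ?_, fun i c => ?_⟩, ⟨fun _ => hrp, fun i c => ?_⟩⟩
      · by_cases h5 : c = z <;> simp [h5, Bef]
      · by_cases h5 : c = z <;> simp [h5, BCond]
      · by_cases h5 : c = z <;> simp [h5, Bef]
    · push Not at h4
      obtain ⟨i, c, hc⟩ := h4
      obtain ⟨x, hx1, hx2⟩ := claimA2 z n (e2 e i c)
        (fun u v h => (Prod.mk.inj (Sum.inr.inj (Prod.mk.inj (Sum.inr.inj (he h))).2)).2)
        (sub2 I i c) _ (fun u h => by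
          have := he h
          simp [rv] at this) hs hc (h3 i c)
      refine ⟨some ((i, c), x), ⟨fun i' c' hc' => ?_, fun h => by simp at h, fun i' c' => ?_⟩,
        ⟨fun h => by simp at h, fun i' c' => ?_⟩⟩
      · exfalso
        dsimp only at hc'
        by_cases h5 : (i', c') = (i, c)
        · rw [if_pos h5] at hc'
          obtain ⟨h6, h7⟩ := Prod.mk.inj h5
          rcases n with _ | _ | n
          · exact x.elim
          · exact x.elim
          · rcases x with _ | x <;> simp [selF2] at hc'
        · rw [if_neg h5] at hc'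
          simp at hc'
      · by_cases h5 : (i', c') = (i, c)
        · obtain ⟨h6, h7⟩ := Prod.mk.inj h5
          subst h6 h7
          simpa using hx1
        · dsimp only
          rw [if_neg h5]
          trivial
      · by_cases h5 : (i', c') = (i, c)
        · obtain ⟨h6, h7⟩ := Prod.mk.inj h5
          subst h6 h7
          simpa using bef_trans hrp _ _ _ hx2
        · dsimp only
          rw [if_neg h5]
          trivial

theorem selF2_ne_self (z : Fin d) : {n : ℕ} → (x : NF2 d n) → selF2 z x ≠ .self
  | 0, x => x.elim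
  | 1, x => x.elim
  | _ + 2, none => by simp [selF2]
  | _ + 2, some _ => by simp [selF2]

theorem selB2_ne_self (z : Fin d) (sb : Fin d → Fin d) : {n : ℕ} → (x : NB2 d n) →
    selB2 z sb x ≠ .self
  | 0, x => x.elim
  | 1, x => x.elim
  | 2, _ => by simp [selB2]
  | 3, _ => by simp [selB2]
  | _ + 4, (_, _, none) => by simp [selB2]
  | _ + 4, (_, _, some _) => by simp [selB2]

theorem claimB2 {o : ℕ → W} (z : Fin d) (sb : Fin d → Fin d) (n : ℕ) :
    2 ≤ n → ∀ e : Var d k n → W, Function.Injective e →
    ∀ (I : Var d k n → Fin k) (p : W), (∀ u, e u ≠ p) → (∃ m, o (m + 1) = p) → Open2 o n e I p →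
    ¬ Open2 (fun m => o (m + 1)) n e I p →
    ∃ x : NB2 d n, BCond (fun m => o (m + 1)) e (selB2 z sb x) I ∧
      Bef (fun m => o (m + 1)) p e (selB2 z sb x) I := by
  induction n using Nat.strong_induction_on with
  | _ n ih =>
    intro hn e he I p hep hp h1 h2
    obtain ⟨n, rfl⟩ : ∃ n', n = n' + 2 := ⟨n - 2, by omega⟩
    obtain ⟨h3, i, c, hc⟩ := h1
    have hne : ∀ i' c' (u : Var d k n), e2 e i' c' u ≠ e (rv (n + 2) I) := fun i' c' u h => by
      have := he h
      simp [rv] at this
    have he2 : ∀ i' c', Function.Injective (e2 e i' c') := fun i' c' u v h =>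
      (Prod.mk.inj (Sum.inr.inj (Prod.mk.inj (Sum.inr.inj (he h))).2)).2
    have hch : ¬ Held o (e (rv (n + 2) I)) (e2 e i c (rv n (sub2 I i c))) := open2_not_held hc
    have h0 : o 0 ≠ e (rv (n + 2) I) := fun h => hch (held_first h (hne _ _ _).symm)
    have h4 : ¬ Held (fun m => o (m + 1)) p (e (rv (n + 2) I)) := fun h => h3 (held_prev h0 h)
    have hs : ∃ m, o (m + 1) = e (rv (n + 2) I) := seen_of_not_held (o := fun m => o (m + 1)) hp h4
    have hrp : Held (fun m => o (m + 1)) (e (rv (n + 2) I)) p :=
      held_total (o := fun m => o (m + 1)) hp h4 (hep _)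
    have h5 : ∀ i' c', ¬ Open2 (fun m => o (m + 1)) n (e2 e i' c') (sub2 I i' c')
        (e (rv (n + 2) I)) := fun i' c' h => h2 ⟨h4, i', c', h⟩
    have hlast : (∀ i' c', Held (fun m => o (m + 1)) (e (rv (n + 2) I))
        (e2 e i' c' (rv n (sub2 I i' c')))) →
        BCond (fun m => o (m + 1)) e (.node true (fun _ c => if c = z then .self else .empty)) I ∧
        Bef (fun m => o (m + 1)) p e (.node true (fun _ c => if c = z then .self else .empty)) I := by
      intro h
      refine ⟨⟨fun i c _ => h i c, fun _ i c => ?_, fun i c => ?_⟩, ⟨fun _ => hrp, fun i c => ?_⟩⟩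
      · by_cases h5 : c = z <;> simp [h5, Bef]
      · by_cases h5 : c = z <;> simp [h5, BCond]
      · by_cases h5 : c = z <;> simp [h5, Bef]
    rcases n with _ | _ | n
    · exact ⟨(), hlast fun i' c' => not_not.1 (h5 i' c')⟩
    · exact ⟨(), hlast fun i' c' => not_not.1 (h5 i' c')⟩
    · obtain ⟨x, hx1, hx2⟩ := ih (n + 2) (by omega) (by omega) (e2 e i c) (he2 i c) (sub2 I i c) _
        (hne i c) hs hc (h5 i c)
      by_cases h6 : ∀ i', Held (fun m => o (m + 1)) (e (rv (n + 4) I))
          (e2 e i' (ch z sb (i, c) i') (rv (n + 2) (sub2 I i' (ch z sb (i, c) i'))))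
      · refine ⟨((i, c), x, none), ⟨fun i' c' hc' => ?_, fun _ i' c' => ?_, fun i' c' => ?_⟩,
          ⟨fun _ => hrp, fun i' c' => ?_⟩⟩
        · dsimp only at hc'
          by_cases h7 : (i', c') = (i, c)
          · rw [if_pos h7] at hc'
            exact absurd hc' (selB2_ne_self z sb x)
          · rw [if_neg h7] at hc'
            by_cases h8 : c' = ch z sb (i, c) i'
            · rw [h8]
              exact h6 i'
            · rw [if_neg h8] at hc'
              simp at hc'
        · dsimp only
          by_cases h7 : (i', c') = (i, c)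
          · obtain ⟨h8, h9⟩ := Prod.mk.inj h7
            subst h8 h9
            simpa using hx2
          · rw [if_neg h7]
            split_ifs <;> trivial
        · dsimp only
          by_cases h7 : (i', c') = (i, c)
          · obtain ⟨h8, h9⟩ := Prod.mk.inj h7
            subst h8 h9
            simpa using hx1
          · rw [if_neg h7]
            split_ifs <;> trivial
        · dsimp only
          by_cases h7 : (i', c') = (i, c)
          · obtain ⟨h8, h9⟩ := Prod.mk.inj h7
            subst h8 h9
            simpa using bef_trans hrp _ _ _ hx2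
          · rw [if_neg h7]
            split_ifs <;> trivial
      · push Not at h6
        obtain ⟨i1, hi1⟩ := h6
        obtain ⟨y, hy1, hy2⟩ := claimA2 (o := fun m => o (m + 1)) z (n + 2)
          (e2 e i1 (ch z sb (i, c) i1)) (he2 _ _) (sub2 I i1 (ch z sb (i, c) i1)) _ (hne _ _) hs hi1
          (h5 _ _)
        refine ⟨((i, c), x, some (i1, y)), ⟨fun i' c' hc' => ?_, fun h => by simp at h,
          fun i' c' => ?_⟩, ⟨fun h => by simp at h, fun i' c' => ?_⟩⟩
        · exfalso
          dsimp only at hc'
          by_cases h7 : (i', c') = (i, c)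
          · rw [if_pos h7] at hc'
            exact selB2_ne_self z sb x hc'
          · rw [if_neg h7] at hc'
            by_cases h8 : (i', c') = (i1, ch z sb (i, c) i1)
            · rw [if_pos h8] at hc'
              exact selF2_ne_self z y hc'
            · rw [if_neg h8] at hc'
              simp at hc'
        · dsimp only
          by_cases h7 : (i', c') = (i, c)
          · obtain ⟨h8, h9⟩ := Prod.mk.inj h7
            subst h8 h9
            simpa using hx1
          · rw [if_neg h7]
            by_cases h8 : (i', c') = (i1, ch z sb (i, c) i1)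
            · rw [if_pos h8]
              obtain ⟨h9, h10⟩ := Prod.mk.inj h8
              subst h9
              rw [h10]
              exact hy1
            · rw [if_neg h8]
              trivial
        · dsimp only
          by_cases h7 : (i', c') = (i, c)
          · obtain ⟨h8, h9⟩ := Prod.mk.inj h7
            subst h8 h9
            simpa using bef_trans hrp _ _ _ hx2
          · rw [if_neg h7]
            by_cases h8 : (i', c') = (i1, ch z sb (i, c) i1)
            · rw [if_pos h8]
              obtain ⟨h9, h10⟩ := Prod.mk.inj h8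
              subst h9
              rw [h10]
              exact bef_trans hrp _ _ _ hy2
            · rw [if_neg h8]
              trivial

end Pool.Agent.Helper6.IC
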