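import Pool.Agent.Helper6.IC.BClaims

/-!
# Programs for tree evaluation which inspect few cells: blocks, the numbers
-/

namespace Pool.Agent.Helper6.IC

open Pool.Agent.Helper5.TreeExp Pool.Agent.Helper18.IC

variable {d k : ℕ} {W : Type}

noncomputable instance fintypeNF2 : (n : ℕ) → Fintype (NF2 d n)
  | 0 => inferInstanceAs (Fintype Empty)
  | 1 => inferInstanceAs (Fintype Empty)
  | n + 2 => by
    have := fintypeNF2 n
    exact inferInstanceAs (Fintype (Option ((Fin d × Fin d) × NF2 d n)))

noncomputable instance fintypeNB2 : (n : ℕ) → Fintype (NB2 d n)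
  | 0 => inferInstanceAs (Fintype Empty)
  | 1 => inferInstanceAs (Fintype Empty)
  | 2 => inferInstanceAs (Fintype Unit)
  | 3 => inferInstanceAs (Fintype Unit)
  | n + 4 => by
    have := fintypeNB2 (n + 2)
    exact inferInstanceAs (Fintype ((Fin d × Fin d) × NB2 d (n + 2) × Option (Fin d × NF2 d (n + 2))))

theorem card_NF2 (hd : 2 ≤ d) : (n : ℕ) → Nat.card (NF2 d n) + 1 ≤ d ^ n
  | 0 => by
    have : Nat.card (NF2 d 0) = 0 := Nat.card_of_isEmpty (α := Empty)
    rw [this]
    simp
  | 1 => by
    have : Nat.card (NF2 d 1) = 0 := Nat.card_of_isEmpty (α := Empty)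
    rw [this]
    simp
    omega
  | n + 2 => by
    have ih := card_NF2 hd n
    have h1 : Nat.card (NF2 d (n + 2)) = d * d * Nat.card (NF2 d n) + 1 := by
      have : Nat.card (NF2 d (n + 2)) = Nat.card (Option ((Fin d × Fin d) × NF2 d n)) := rfl
      rw [this, Finite.card_option, Nat.card_prod, Nat.card_prod, Nat.card_fin]
    have h2 : 2 ≤ d * d := by nlinarith
    rw [h1]
    calc d * d * Nat.card (NF2 d n) + 1 + 1 ≤ d * d * Nat.card (NF2 d n) + d * d := by omega
      _ = (Nat.card (NF2 d n) + 1) * (d * d) := by ring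
      _ ≤ d ^ n * (d * d) := Nat.mul_le_mul_right _ ih
      _ = d ^ (n + 2) := by ring

theorem card_NB2 (hd : 2 ≤ d) : (n : ℕ) → Nat.card (NB2 d n) ≤ d ^ ((n + 1) ^ 2)
  | 0 => by
    have : Nat.card (NB2 d 0) = 0 := Nat.card_of_isEmpty (α := Empty)
    rw [this]
    exact Nat.zero_le _
  | 1 => by
    have : Nat.card (NB2 d 1) = 0 := Nat.card_of_isEmpty (α := Empty)
    rw [this]
    exact Nat.zero_le _
  | 2 => by
    have : Nat.card (NB2 d 2) = 1 := by
      have : Nat.card (NB2 d 2) = Nat.card Unit := rfl
      rw [this]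
      simp
    rw [this]
    exact Nat.one_le_pow _ _ (by omega)
  | 3 => by
    have : Nat.card (NB2 d 3) = 1 := by
      have : Nat.card (NB2 d 3) = Nat.card Unit := rfl
      rw [this]
      simp
    rw [this]
    exact Nat.one_le_pow _ _ (by omega)
  | n + 4 => by
    have ih := card_NB2 hd (n + 2)
    have h1 : Nat.card (NB2 d (n + 4)) =
        d * d * (Nat.card (NB2 d (n + 2)) * (d * Nat.card (NF2 d (n + 2)) + 1)) := by
      have : Nat.card (NB2 d (n + 4)) =
        Nat.card ((Fin d × Fin d) × NB2 d (n + 2) × Option (Fin d × NF2 d (n + 2))) := rfl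
      rw [this, Nat.card_prod, Nat.card_prod, Nat.card_prod, Finite.card_option, Nat.card_prod,
        Nat.card_fin]
    have h2 : d * Nat.card (NF2 d (n + 2)) + 1 ≤ d ^ (n + 3) := by
      have h3 := card_NF2 hd (n + 2)
      calc d * Nat.card (NF2 d (n + 2)) + 1 ≤ d * Nat.card (NF2 d (n + 2)) + d := by omega
        _ = (Nat.card (NF2 d (n + 2)) + 1) * d := by ring
        _ ≤ d ^ (n + 2) * d := Nat.mul_le_mul_right _ h3
        _ = d ^ (n + 3) := by ring
    rw [h1]
    calc d * d * (Nat.card (NB2 d (n + 2)) * (d * Nat.card (NF2 d (n + 2)) + 1))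
        ≤ d * d * (d ^ ((n + 2 + 1) ^ 2) * d ^ (n + 3)) :=
          Nat.mul_le_mul_left _ (Nat.mul_le_mul ih h2)
      _ = d ^ ((n + 2 + 1) ^ 2 + (n + 3) + 2) := by ring
      _ ≤ d ^ ((n + 4 + 1) ^ 2) := Nat.pow_le_pow_right (by omega) (by nlinarith)

theorem base_WF (z : Fin d) {n : ℕ} :
    (BSel.node (n := n) true (fun _ c => if c = z then .self else .empty)).WF := by
  refine ⟨fun h => by simp at h, fun i c c' h h' => ?_, fun i c => ?_⟩
  · by_cases h1 : c = z <;> by_cases h2 : c' = z
    · rw [h1, h2]
    · simp [h2] at h'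
    · simp [h1] at h
    · simp [h1] at h
  · by_cases h1 : c = z <;> simp [h1, BSel.WF]

theorem selF2_WF (z : Fin d) : {n : ℕ} → (x : NF2 d n) → (selF2 z x).WF
  | 0, x => x.elim
  | 1, x => x.elim
  | _ + 2, none => base_WF z
  | _ + 2, some y => by
    have h0 : ∀ i c, (if (i, c) = y.1 then selF2 z y.2 else BSel.empty) ≠ .self := fun i c => by
      split_ifs
      · exact selF2_ne_self z _
      · simp
    refine ⟨fun _ i c => h0 i c, fun i c c' h _ => absurd h (h0 i c), fun i c => ?_⟩
    dsimp only
    split_ifs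
    · exact selF2_WF z _
    · trivial

theorem selB2_WF (z : Fin d) (sb : Fin d → Fin d) : {n : ℕ} → (x : NB2 d n) → (selB2 z sb x).WF
  | 0, x => x.elim
  | 1, x => x.elim
  | 2, _ => base_WF z
  | 3, _ => base_WF z
  | n + 4, (p, x, none) => by
    have h0 : ∀ i c, (if (i, c) = p then selB2 z sb x else
        if c = ch z sb p i then BSel.self else .empty) = .self → c = ch z sb p i := by
      intro i c h
      by_contra hc
      rw [if_neg hc] at h
      split_ifs at h
      · exact selB2_ne_self z sb x h
    refine ⟨fun h => by simp at h, fun i c c' h h' => (h0 i c h).trans (h0 i c' h').symm,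
      fun i c => ?_⟩
    dsimp only
    split_ifs
    · exact selB2_WF z sb x
    · trivial
    · trivial
  | n + 4, (p, x, some y) => by
    have h0 : ∀ i c, (if (i, c) = p then selB2 z sb x else
        if (i, c) = (y.1, ch z sb p y.1) then selF2 z y.2 else BSel.empty) ≠ .self := fun i c => by
      split_ifs
      · exact selB2_ne_self z sb x
      · exact selF2_ne_self z _
      · simp
    refine ⟨fun _ i c => h0 i c, fun i c c' h _ => absurd h (h0 i c), fun i c => ?_⟩
    dsimp only
    split_ifs
    · exact selB2_WF z sb x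
    · exact selF2_WF z _
    · trivial

private theorem sum_at (p : Fin d × Fin d) (a : ℕ) :
    ∑ i : Fin d, ∑ c : Fin d, (if (i, c) = p then a else 0) = a := by
  have h : ∑ i : Fin d, ∑ c : Fin d, (if (i, c) = p then a else 0) =
      ∑ q : Fin d × Fin d, (if q = p then a else 0) :=
    (Fintype.sum_prod_type (fun q : Fin d × Fin d => if q = p then a else 0)).symm
  rw [h, Finset.sum_ite_eq' Finset.univ p, if_pos (Finset.mem_univ p)]

private theorem sum_line (f : Fin d → Fin d) :
    ∑ i : Fin d, ∑ c : Fin d, (if c = f i then 1 else 0) = d := by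
  have h : ∀ i : Fin d, ∑ c : Fin d, (if c = f i then 1 else 0) = 1 := fun i => by
    rw [Finset.sum_ite_eq' Finset.univ (f i), if_pos (Finset.mem_univ _)]
  simp [h]

theorem base_size (z : Fin d) {n : ℕ} :
    (BSel.node (n := n) true (fun _ c => if c = z then .self else .empty)).size = d := by
  have h : ∀ c : Fin d, (if c = z then BSel.self (d := d) (n := n) else .empty).size =
      if c = z then 1 else 0 := fun c => by
    split_ifs <;> simp [BSel.size]
  rw [BSel.size]
  simp only [h]
  exact sum_line (fun _ => z)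

theorem base_groups (z : Fin d) {n : ℕ} :
    (BSel.node (n := n) true (fun _ c => if c = z then .self else .empty)).groups = 1 := by
  have h : ∀ c : Fin d, (if c = z then BSel.self (d := d) (n := n) else .empty).groups = 0 := fun c => by
    split_ifs <;> simp [BSel.groups]
  rw [BSel.groups]
  simp [h]

theorem selF2_size (z : Fin d) : {n : ℕ} → (x : NF2 d n) → (selF2 z x).size = d
  | 0, x => x.elim
  | 1, x => x.elim
  | _ + 2, none => base_size z
  | n + 2, some y => by
    have h : ∀ i c : Fin d, (if (i, c) = y.1 then selF2 z y.2 else BSel.empty).size =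
        if (i, c) = y.1 then d else 0 := fun i c => by
      split_ifs
      · exact selF2_size z y.2
      · simp [BSel.size]
    simp only [selF2, BSel.size, h]
    exact sum_at _ _

theorem selF2_groups (z : Fin d) : {n : ℕ} → (x : NF2 d n) → (selF2 z x).groups = 1
  | 0, x => x.elim
  | 1, x => x.elim
  | _ + 2, none => base_groups z
  | n + 2, some y => by
    have h : ∀ i c : Fin d, (if (i, c) = y.1 then selF2 z y.2 else BSel.empty).groups =
        if (i, c) = y.1 then 1 else 0 := fun i c => by
      split_ifs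
      · exact selF2_groups z y.2
      · simp [BSel.groups]
    simp only [selF2, BSel.groups, h]
    rw [sum_at]
    simp

theorem selB2_size (z : Fin d) (sb : Fin d → Fin d) (hsb : ∀ c, sb c ≠ c) :
    {n : ℕ} → (x : NB2 d n) → (selB2 z sb x).size = d * (n / 2)
  | 0, x => x.elim
  | 1, x => x.elim
  | 2, _ => by
    rw [selB2, base_size]
    simp
  | 3, _ => by
    rw [selB2, base_size]
    simp
  | n + 4, (p, x, none) => by
    have ih := selB2_size z sb hsb x
    have h : ∀ i c : Fin d, (if (i, c) = p then selB2 z sb x else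
        if c = ch z sb p i then BSel.self else .empty).size =
        (if (i, c) = p then d * ((n + 2) / 2) else 0) + (if c = ch z sb p i then 1 else 0) := by
      intro i c
      by_cases h1 : (i, c) = p
      · have h2 : c ≠ ch z sb p i := fun h => ch_ne (z := z) hsb p i (by rw [← h]; exact h1)
        rw [if_pos h1, if_pos h1, if_neg h2, ih]
        rfl
      · rw [if_neg h1, if_neg h1]
        split_ifs <;> simp [BSel.size]
    simp only [selB2, BSel.size, h, Finset.sum_add_distrib]
    rw [sum_at, sum_line]
    have h2 : (n + 4) / 2 = (n + 2) / 2 + 1 := by omega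
    rw [h2]
    ring
  | n + 4, (p, x, some y) => by
    have ih := selB2_size z sb hsb x
    have h : ∀ i c : Fin d, (if (i, c) = p then selB2 z sb x else
        if (i, c) = (y.1, ch z sb p y.1) then selF2 z y.2 else BSel.empty).size =
        (if (i, c) = p then d * ((n + 2) / 2) else 0) +
        (if (i, c) = (y.1, ch z sb p y.1) then d else 0) := by
      intro i c
      by_cases h1 : (i, c) = p
      · have h2 : (i, c) ≠ (y.1, ch z sb p y.1) := fun h =>
          ch_ne (z := z) hsb p y.1 (by rw [← h]; exact h1)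
        rw [if_pos h1, if_pos h1, if_neg h2, ih]
        rfl
      · rw [if_neg h1, if_neg h1]
        split_ifs
        · rw [selF2_size]
          simp
        · simp [BSel.size]
    simp only [selB2, BSel.size, h, Finset.sum_add_distrib]
    rw [sum_at, sum_at]
    have h2 : (n + 4) / 2 = (n + 2) / 2 + 1 := by omega
    rw [h2]
    ring

theorem selB2_groups (z : Fin d) (sb : Fin d → Fin d) (hsb : ∀ c, sb c ≠ c) :
    {n : ℕ} → (x : NB2 d n) → (selB2 z sb x).groups = n / 2
  | 0, x => x.elim
  | 1, x => x.elim
  | 2, _ => by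
    rw [selB2, base_groups]
  | 3, _ => by
    rw [selB2, base_groups]
  | n + 4, (p, x, none) => by
    have ih := selB2_groups z sb hsb x
    have h : ∀ i c : Fin d, (if (i, c) = p then selB2 z sb x else
        if c = ch z sb p i then BSel.self else .empty).groups =
        (if (i, c) = p then (n + 2) / 2 else 0) := by
      intro i c
      by_cases h1 : (i, c) = p
      · rw [if_pos h1, if_pos h1, ih]
      · rw [if_neg h1, if_neg h1]
        split_ifs <;> simp [BSel.groups]
    simp only [selB2, BSel.groups, h]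
    rw [sum_at]
    simp
    omega
  | n + 4, (p, x, some y) => by
    have ih := selB2_groups z sb hsb x
    have h : ∀ i c : Fin d, (if (i, c) = p then selB2 z sb x else
        if (i, c) = (y.1, ch z sb p y.1) then selF2 z y.2 else BSel.empty).groups =
        (if (i, c) = p then (n + 2) / 2 else 0) +
        (if (i, c) = (y.1, ch z sb p y.1) then 1 else 0) := by
      intro i c
      by_cases h1 : (i, c) = p
      · have h2 : (i, c) ≠ (y.1, ch z sb p y.1) := fun h =>
          ch_ne (z := z) hsb p y.1 (by rw [← h]; exact h1)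
        rw [if_pos h1, if_pos h1, if_neg h2, ih]
        rfl
      · rw [if_neg h1, if_neg h1]
        split_ifs
        · rw [selF2_groups]
        · simp [BSel.groups]
    simp only [selB2, BSel.groups, h, Finset.sum_add_distrib]
    rw [sum_at, sum_at]
    simp
    omega

/-- For each table of a node at even distance from the root at most `T` entries are observed. -/
def Few2 (o : ℕ → W) (T : ℕ) : (n : ℕ) → (Var d k n → W) → Prop
  | 0, _ => True
  | 1, e => {a : Fin d → Fin k | ∃ m, o m = e (Sum.inl a)}.ncard ≤ T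
  | n + 2, e => {a : Fin d → Fin k | ∃ m, o m = e (Sum.inl a)}.ncard ≤ T ∧
      ∀ i c, Few2 o T n (e2 e i c)

theorem few2_mono {W : Type} {T : ℕ} {o o' : ℕ → W} (h : ∀ m, ∃ m', o m' = o' m) :
    (n : ℕ) → (e : Var d k n → W) → Few2 o T n e → Few2 o' T n e
  | 0, _, _ => trivial
  | 1, e, hf => by
    refine le_trans (Set.ncard_le_ncard ?_ (Set.toFinite _)) hf
    rintro a ⟨m, hm⟩
    obtain ⟨m', hm'⟩ := h m
    exact ⟨m', hm'.trans hm⟩
  | n + 2, e, hf => by
    refine ⟨le_trans (Set.ncard_le_ncard ?_ (Set.toFinite _)) hf.1, fun i c =>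
      few2_mono h n _ (hf.2 i c)⟩
    rintro a ⟨m, hm⟩
    obtain ⟨m', hm'⟩ := h m
    exact ⟨m', hm'.trans hm⟩

/-- Codes exist. -/
theorem code_exists {W : Type} {T m : ℕ} {o : ℕ → W} {p : W} : {n : ℕ} → (s : BSel d n) →
    (e : Var d k n → W) → Function.Injective e → (I : Var d k n → Fin k) → Few2 o T n e →
    Lines m n I → Bef o p e s I → (r : ℕ) → r < m →
    ∃ a : Code T m s, RankAt m T s a r ∧ CodeOK o T m e s I a
  | _, .empty, _, _, _, _, _, _, _, _ => ⟨(), trivial, trivial⟩
  | _, .self, _, _, _, _, _, _, r, hr => ⟨(⟨r, hr⟩ : Fin m), rfl, trivial⟩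
  | n + 2, .node g s, e, he, I, hf, hl, hb, _, _ => by
    have hrk : ∀ i c : Fin d, rank (fun x => subI I i (Sum.inl x)) (args (subI I i)) c (args I i)
        (args (subI I i) c) < m := by
      intro i c
      refine lt_of_lt_of_le (Set.ncard_lt_ncard ?_ (Set.toFinite _))
        ((hl.2 i).1 (args (subI I i)) c (args I i))
      refine ⟨fun t ht => ht.2, fun hsub => ?_⟩
      have h1 := hsub (show args (subI I i) c ∈ {t : Fin k | subI I i
        (Sum.inl (Function.update (args (subI I i)) c t)) = args I i} by
          rw [Set.mem_ofPred_eq, Function.update_eq_self]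
          rfl)
      exact lt_irrefl _ h1.1
    choose a ha ha' using fun i c => code_exists (s i c) (e2 e i c)
      (fun u v h => (Prod.mk.inj (Sum.inr.inj (Prod.mk.inj (Sum.inr.inj (he h))).2)).2)
      (sub2 I i c) (hf.2 i c) ((hl.2 i).2 c) (hb.2 i c) _ (hrk i c)
    cases g with
    | false => exact ⟨(⟨0, Nat.one_pos⟩, a), trivial, fun h => by simp at h, ha, ha'⟩
    | true =>
      classical
      have h1 := held_seen (hb.1 rfl)
      set M := Nat.find h1 with hM
      have h2 : o M = e (Sum.inl (args I)) := Nat.find_spec h1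
      have h3 : ∀ m < M, o m ≠ e (Sum.inl (args I)) := fun m hm => Nat.find_min h1 hm
      have h4 : {a' : Fin d → Fin k | ∃ m < M, o m = e (Sum.inl a')}.ncard < T := by
        refine lt_of_lt_of_le (Set.ncard_lt_ncard ?_ (Set.toFinite _)) hf.1
        refine ⟨?_, fun hsub => ?_⟩
        · rintro a ⟨m, -, hm⟩
          exact ⟨m, hm⟩
        · obtain ⟨m, hm, hm'⟩ := hsub (⟨M, h2⟩ : args I ∈ {a | ∃ m, o m = e (Sum.inl a)})
          exact h3 m hm hm'
      exact ⟨(⟨_, h4⟩, a), trivial, fun _ => ⟨M, h2, h3, rfl⟩, ha, ha'⟩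

end Pool.Agent.Helper6.IC
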