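import Pool.Agent.Helper6.IC.Phi

/-!
# Programs for tree evaluation which inspect few cells: blocks of two levels, definitions

The nodes of the set are grandchildren of indexed nodes `y`; the index of `y` tells the values of the
children `v` of `y`, and for each child `v` of `y` at most one child `u` of `v` is in the set; the value of
`u` is found from the value of `v`, the values of the other children of `v` and the rank of the value of `u`
among the solutions `t` of `f_v(.., t, ..) = value of v`.
-/

namespace Pool.Agent.Helper6.IC

open Pool.Agent.Helper5.TreeExp Pool.Agent.Helper18.IC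

variable {d k : ℕ}

/-- The instance at a grandchild of the root. -/
def sub2 {n : ℕ} (I : Var d k (n + 2) → Fin k) (i c : Fin d) : Var d k n → Fin k :=
  subI (subI I i) c

/-- The variables of a grandchild of the root. -/
def e2 {n : ℕ} {W : Type} (e : Var d k (n + 2) → W) (i c : Fin d) : Var d k n → W :=
  fun u => e (Sum.inr (i, Sum.inr (c, u)))

/-- A set of nodes, in steps of two levels; `g` tells if there is an index for the root. -/
inductive BSel (d : ℕ) : ℕ → Type
  | empty {n : ℕ} : BSel d n
  | self {n : ℕ} : BSel d n
  | node {n : ℕ} (g : Bool) (s : Fin d → Fin d → BSel d n) : BSel d (n + 2)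

/-- The same set in steps of one level. -/
def BSel.toSel : {n : ℕ} → BSel d n → Sel d n
  | _, .empty => .empty
  | _, .self => .self
  | _, .node g s => .node g (fun i => .node false (fun c => (s i c).toSel))

/-- The number of nodes of the set. -/
def BSel.size : {n : ℕ} → BSel d n → ℕ
  | _, .empty => 0
  | _, .self => 1
  | _, .node _ s => ∑ i, ∑ c, (s i c).size

/-- The number of indices. -/
def BSel.groups : {n : ℕ} → BSel d n → ℕ
  | _, .empty => 0
  | _, .self => 0
  | _, .node g s => (if g then 1 else 0) + ∑ i, ∑ c, (s i c).groups

/-- Grandchildren in the set only below an indexed node, at most one below each child. -/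
def BSel.WF : {n : ℕ} → BSel d n → Prop
  | _, .empty => True
  | _, .self => True
  | _, .node g s => (g = false → ∀ i c, s i c ≠ .self) ∧
      (∀ i c c', s i c = .self → s i c' = .self → c = c') ∧ ∀ i c, (s i c).WF

/-- All indexed nodes are observed before `p`. -/
def Bef {W : Type} (o : ℕ → W) (p : W) : {n : ℕ} → (Var d k n → W) → BSel d n →
    (Var d k n → Fin k) → Prop
  | _, _, .empty, _ => True
  | _, _, .self, _ => True
  | n + 2, e, .node g s, I => (g = true → Held o (e (rv (n + 2) I)) p) ∧
      ∀ i c, Bef o p (e2 e i c) (s i c) (sub2 I i c)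

/-- The grandchildren in the set are held, and the indexed nodes below an indexed node are observed
before it. -/
def BCond {W : Type} (o : ℕ → W) : {n : ℕ} → (Var d k n → W) → BSel d n → (Var d k n → Fin k) → Prop
  | _, _, .empty, _ => True
  | _, _, .self, _ => True
  | n + 2, e, .node g s, I =>
      (∀ i c, s i c = .self → Held o (e (rv (n + 2) I)) (e2 e i c (rv n (sub2 I i c)))) ∧
      (g = true → ∀ i c, Bef o (e (rv (n + 2) I)) (e2 e i c) (s i c) (sub2 I i c)) ∧
      ∀ i c, BCond o (e2 e i c) (s i c) (sub2 I i c)

/-- The indices, numbers smaller than `T`, and the ranks, numbers smaller than `m`. -/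
def Code (T m : ℕ) : {n : ℕ} → BSel d n → Type
  | _, .empty => Unit
  | _, .self => Fin m
  | _, .node g s => Fin (if g then T else 1) × ∀ i c, Code T m (s i c)

/-- The number of the solutions `t' < t` of `f(x with t' at c) = y`. -/
noncomputable def rank (f : (Fin d → Fin k) → Fin k) (x : Fin d → Fin k) (c : Fin d) (y : Fin k)
    (t : Fin k) : ℕ :=
  {t' : Fin k | t' < t ∧ f (Function.update x c t') = y}.ncard

/-- The ranks of the nodes of the set just at the grandchildren. -/
def RankAt (m : ℕ) {n : ℕ} (T : ℕ) (s : BSel d n) (a : Code T m s) (r : ℕ) : Prop :=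
  match n, s, a with
  | _, .self, a => (a : Fin m).1 = r
  | _, .empty, _ => True
  | _, .node _ _, _ => True

/-- The indices and the ranks are those of the run. -/
def CodeOK {W : Type} (o : ℕ → W) (T m : ℕ) : {n : ℕ} → (Var d k n → W) → (s : BSel d n) →
    (Var d k n → Fin k) → Code T m s → Prop
  | _, _, .empty, _, _ => True
  | _, _, .self, _, _ => True
  | _ + 2, e, .node g s, I, a =>
      (g = true → IdxAt o (fun x => e (Sum.inl x)) (args I) a.1) ∧
      (∀ i c, RankAt m T (s i c) (a.2 i c)
        (rank (fun x => subI I i (Sum.inl x)) (args (subI I i)) c (args I i)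
          (args (subI I i) c))) ∧
      ∀ i c, CodeOK o T m (e2 e i c) (s i c) (sub2 I i c) (a.2 i c)

/-- In each table each line (one argument varies) takes each value at most `m` times. -/
def Lines (m : ℕ) : (n : ℕ) → (Var d k n → Fin k) → Prop
  | 0, _ => True
  | n + 1, I => (∀ (x : Fin d → Fin k) (c : Fin d) (y : Fin k),
      {t : Fin k | I (Sum.inl (Function.update x c t)) = y}.ncard ≤ m) ∧ ∀ c, Lines m n (subI I c)

end Pool.Agent.Helper6.IC
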