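import Pool.Agent.Helper6.IC.BCount
import Pool.Agent.Helper6.IC.Sum
import Pool.Agent.Helper18.IC.BDec

/-!
# Programs for tree evaluation which inspect few cells: blocks, the bound for the number of good instances
-/

namespace Pool.Agent.Helper6.IC

open Pool.Agent.Helper5.TreeExp Pool.Agent.Helper18.IC

variable {d k : ℕ}

/-- The instances for which the program outputs the image of the value of the root under `φ` and inspects
at most `T` entries of each table of a node at even distance from the root. -/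
def GoodPhi2 {n N : ℕ} (T : ℕ) (φ : Fin k → Fin k) (B : BP (Var d k n) k N)
    (I : Var d k n → Fin k) : Prop :=
  (∃ m, obs B I B.start m = Sum.inr (φ (valI n I))) ∧ Few2 (obs B I B.start) T n Sum.inl

theorem good_cases2 {n N T m : ℕ} (z : Fin d) (sb : Fin d → Fin d) (hn : 2 ≤ n)
    (φ : Fin k → Fin k) (B : BP (Var d k n) k N)
    (I : Var d k n → Fin k) (h : GoodPhi2 T φ B I) (hl : Lines m n I) (hm : 1 ≤ m) :
    Held (obs B I B.start) (Sum.inr (φ (valI n I))) (Sum.inl (rv n I)) ∨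
    (∃ (x : NF2 d n) (a : Code T m (selF2 z x)), BCond (obs B I B.start) Sum.inl (selF2 z x) I ∧
      CodeOK (obs B I B.start) T m Sum.inl (selF2 z x) I a) ∨
    ∃ (q : Fin N) (x : NB2 d n) (a : Code T m (selB2 z sb x)),
      BCond (obs B I q) Sum.inl (selB2 z sb x) I ∧
      CodeOK (obs B I q) T m Sum.inl (selB2 z sb x) I a := by
  obtain ⟨⟨l, hl'⟩, hf⟩ := h
  set o := obs B I B.start with ho
  have hne : ∀ u : Var d k n, (Sum.inl u : Var d k n ⊕ Fin k) ≠ Sum.inr (φ (valI n I)) :=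
    fun u => by simp
  by_cases h1 : Held o (Sum.inr (φ (valI n I))) (Sum.inl (rv n I))
  · exact Or.inl h1
  · right
    by_cases h2 : Open2 o n Sum.inl I (Sum.inr (φ (valI n I)))
    · right
      -- a step at which the last open path is closed
      have h3 : ∃ j, j < l ∧ Open2 (fun i => o (i + j)) n Sum.inl I (Sum.inr (φ (valI n I))) ∧
          ¬ Open2 (fun i => o (i + (j + 1))) n Sum.inl I (Sum.inr (φ (valI n I))) := by
        by_contra hc
        push Not at hc
        have h4 : ∀ j, j ≤ l →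
            Open2 (fun i => o (i + j)) n Sum.inl I (Sum.inr (φ (valI n I))) := by
          intro j
          induction j with
          | zero => exact fun _ => h2
          | succ j ih => exact fun hj => hc j (by omega) (ih (by omega))
        have h6 : ¬ Held (fun i => o (i + l)) (Sum.inr (φ (valI n I))) (Sum.inl (rv n I)) :=
          open2_not_held (h4 l le_rfl)
        exact h6 (held_first (by simpa using hl') (by simp))
      obtain ⟨j, hjm, hj1, hj2⟩ := h3
      have e1 : (fun i => (fun i => o (i + j)) (i + 1)) = fun i => o (i + (j + 1)) := by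
        funext i
        change o (i + 1 + j) = o (i + (j + 1))
        rw [show i + 1 + j = i + (j + 1) by omega]
      obtain ⟨x, hx1, hx2⟩ := claimB2 z sb n hn Sum.inl Sum.inl_injective I
        (Sum.inr (φ (valI n I))) hne (o := fun i => o (i + j)) ⟨l - j - 1, by
          rw [show l - j - 1 + 1 + j = l by omega]
          exact hl'⟩ hj1 (by
          rw [e1]
          exact hj2)
      rw [e1] at hx1 hx2
      have hf' : Few2 (fun i => o (i + (j + 1))) T n Sum.inl :=
        few2_mono (fun i => ⟨_, rfl⟩) _ _ hf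
      obtain ⟨a, -, ha⟩ := code_exists (selB2 z sb x) Sum.inl Sum.inl_injective I hf' hl hx2 0 hm
      refine ⟨(B.step I)^[j + 1] B.start, x, a, ?_⟩
      rw [obs_shift]
      exact ⟨hx1, ha⟩
    · left
      obtain ⟨x, hx1, hx2⟩ := claimA2 z n Sum.inl Sum.inl_injective I (Sum.inr (φ (valI n I))) hne
        ⟨l, hl'⟩ h1 h2
      obtain ⟨a, -, ha⟩ := code_exists (selF2 z x) Sum.inl Sum.inl_injective I hf hl hx2 0 hm
      exact ⟨x, a, hx1, ha⟩

theorem block_bound {n N T m mp : ℕ} (hd : 2 ≤ d) (hk : 1 ≤ k) (hn : 2 ≤ n) (hm : 1 ≤ m)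
    (φ : Fin k → Fin k) (hφ : ∀ x, Nat.card {y // φ y = x} ≤ mp) (B : BP (Var d k n) k N) :
    (Nat.card {I : Var d k n → Fin k // GoodPhi2 T φ B I ∧ Lines m n I} : ℝ) ≤
      (mp / (k : ℝ) + (d : ℝ) ^ n * ((T : ℝ) * (m : ℝ) ^ d) / (k : ℝ) ^ d +
        N * (d : ℝ) ^ ((n + 1) ^ 2) * ((T : ℝ) * (m : ℝ) ^ d) ^ (n / 2) /
          (k : ℝ) ^ (d * (n / 2))) *
      Nat.card (Var d k n → Fin k) := by
  classical
  set z : Fin d := ⟨0, by omega⟩ with hz
  set sb : Fin d → Fin d := fun c => if c.1 = 0 then ⟨1, by omega⟩ else z with hsbd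
  have hsb : ∀ c, sb c ≠ c := by
    intro c h
    rw [hsbd] at h
    dsimp only at h
    split_ifs at h with h1
    · rw [← h] at h1
      simp at h1
    · rw [← h] at h1
      exact h1 rfl
  have hk0 : (0 : ℝ) < k := by exact_mod_cast hk
  set X : ℝ := ((Nat.card (Var d k n → Fin k) : ℕ) : ℝ) with hX
  have hX0 : 0 ≤ X := Nat.cast_nonneg _
  have hfinX : Finite (Var d k n → Fin k) := inferInstance
  have hfF : Finite (Σ x : NF2 d n, Code T m (selF2 z x)) := inferInstance
  have hfB : Finite (Fin N × Σ x : NB2 d n, Code T m (selB2 z sb x)) := inferInstance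
  have : Fintype (Σ x : NF2 d n, Code T m (selF2 z x)) := Fintype.ofFinite _
  have : Fintype (Fin N × Σ x : NB2 d n, Code T m (selB2 z sb x)) := Fintype.ofFinite _
  let P : Unit ⊕ ((Σ x : NF2 d n, Code T m (selF2 z x)) ⊕
      (Fin N × Σ x : NB2 d n, Code T m (selB2 z sb x))) →
      (Var d k n → Fin k) → Prop := fun w I => match w with
    | Sum.inl _ => Held (obs B I B.start) (Sum.inr (φ (valI n I))) (Sum.inl (rv n I))
    | Sum.inr (Sum.inl y) => BCond (obs B I B.start) Sum.inl (selF2 z y.1) I ∧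
        CodeOK (obs B I B.start) T m Sum.inl (selF2 z y.1) I y.2
    | Sum.inr (Sum.inr y) => BCond (obs B I y.1) Sum.inl (selB2 z sb y.2.1) I ∧
        CodeOK (obs B I y.1) T m Sum.inl (selB2 z sb y.2.1) I y.2.2
  have hcov := cover P (fun I => GoodPhi2 T φ B I ∧ Lines m n I) (fun I hI => by
    rcases good_cases2 z sb hn φ B I hI.1 hI.2 hm with h | ⟨x, i, h⟩ | ⟨q, x, i, h⟩
    · exact ⟨Sum.inl (), h⟩
    · exact ⟨Sum.inr (Sum.inl ⟨x, i⟩), h⟩
    · exact ⟨Sum.inr (Sum.inr (q, ⟨x, i⟩)), h⟩)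
  have hcov' : (Nat.card {I : Var d k n → Fin k // GoodPhi2 T φ B I ∧ Lines m n I} : ℝ) ≤
      ∑ w, (Nat.card {I // P w I} : ℝ) := by exact_mod_cast hcov
  rw [Fintype.sum_sum_type, Fintype.sum_sum_type] at hcov'
  refine hcov'.trans ?_
  have hroot : (Nat.card {I // P (Sum.inl ()) I} : ℝ) ≤ mp * X / k := by
    rw [le_div_iff₀ hk0, hX]
    have h1 : Nat.card {I // P (Sum.inl ()) I} * k ≤ mp * Nat.card (Var d k n → Fin k) :=
      root_bound_phi B B.start φ hφ
    exact_mod_cast h1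
  have hF : ∀ y : (Σ x : NF2 d n, Code T m (selF2 z x)),
      (Nat.card {I // P (Sum.inr (Sum.inl y)) I} : ℝ) ≤ X / (k : ℝ) ^ d := by
    rintro ⟨x, i⟩
    rw [le_div_iff₀ (by positivity), hX]
    have h1 : Nat.card {I // P (Sum.inr (Sum.inl ⟨x, i⟩)) I} * k ^ (selF2 z x).size ≤
        Nat.card (Var d k n → Fin k) :=
      B_bound B B.start (selF2 z x) (selF2_ne_self z x) (selF2_WF z x) i
    rw [selF2_size] at h1
    exact_mod_cast h1
  have hB : ∀ y : (Fin N × Σ x : NB2 d n, Code T m (selB2 z sb x)),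
      (Nat.card {I // P (Sum.inr (Sum.inr y)) I} : ℝ) ≤ X / (k : ℝ) ^ (d * (n / 2)) := by
    rintro ⟨q, x, i⟩
    rw [le_div_iff₀ (by positivity), hX]
    have h1 : Nat.card {I // P (Sum.inr (Sum.inr (q, ⟨x, i⟩))) I} * k ^ (selB2 z sb x).size ≤
        Nat.card (Var d k n → Fin k) :=
      B_bound B q (selB2 z sb x) (selB2_ne_self z sb x) (selB2_WF z sb x) i
    rw [selB2_size z sb hsb] at h1
    exact_mod_cast h1
  have hcF : ((Fintype.card (Σ x : NF2 d n, Code T m (selF2 z x)) : ℕ) : ℝ) ≤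
      (d : ℝ) ^ n * ((T : ℝ) * (m : ℝ) ^ d) := by
    have h1 : Fintype.card (Σ x : NF2 d n, Code T m (selF2 z x)) =
        Nat.card (NF2 d n) * (T * m ^ d) := by
      rw [← Nat.card_eq_fintype_card, Nat.card_sigma]
      have h2 : ∀ x : NF2 d n, Nat.card (Code T m (selF2 z x)) = T * m ^ d := fun x => by
        rw [card_code, selF2_groups, selF2_size, pow_one]
      simp only [h2, Finset.sum_const, Finset.card_univ, smul_eq_mul]
      rw [Nat.card_eq_fintype_card]
    have h2 := card_NF2 hd n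
    have h3 : Nat.card (NF2 d n) * (T * m ^ d) ≤ d ^ n * (T * m ^ d) :=
      Nat.mul_le_mul_right _ (by omega)
    rw [h1]
    exact_mod_cast h3
  have hcB : ((Fintype.card (Fin N × Σ x : NB2 d n, Code T m (selB2 z sb x)) : ℕ) : ℝ) ≤
      N * (d : ℝ) ^ ((n + 1) ^ 2) * ((T : ℝ) * (m : ℝ) ^ d) ^ (n / 2) := by
    have h1 : Fintype.card (Fin N × Σ x : NB2 d n, Code T m (selB2 z sb x)) =
        N * (Nat.card (NB2 d n) * (T * m ^ d) ^ (n / 2)) := by
      rw [← Nat.card_eq_fintype_card, Nat.card_prod, Nat.card_fin, Nat.card_sigma]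
      have h2 : ∀ x : NB2 d n, Nat.card (Code T m (selB2 z sb x)) = (T * m ^ d) ^ (n / 2) :=
        fun x => by
          rw [card_code, selB2_groups z sb hsb, selB2_size z sb hsb, mul_pow, ← pow_mul]
      simp only [h2, Finset.sum_const, Finset.card_univ, smul_eq_mul]
      rw [Nat.card_eq_fintype_card]
    have h2 := card_NB2 hd n
    have h3 : N * (Nat.card (NB2 d n) * (T * m ^ d) ^ (n / 2)) ≤
        N * (d ^ ((n + 1) ^ 2) * (T * m ^ d) ^ (n / 2)) :=
      Nat.mul_le_mul_left _ (Nat.mul_le_mul_right _ h2)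
    rw [h1]
    calc ((N * (Nat.card (NB2 d n) * (T * m ^ d) ^ (n / 2)) : ℕ) : ℝ) ≤
        ((N * (d ^ ((n + 1) ^ 2) * (T * m ^ d) ^ (n / 2)) : ℕ) : ℝ) := by exact_mod_cast h3
      _ = N * (d : ℝ) ^ ((n + 1) ^ 2) * ((T : ℝ) * (m : ℝ) ^ d) ^ (n / 2) := by
        push_cast
        ring
  have s1 : ∑ w : Unit, (Nat.card {I // P (Sum.inl w) I} : ℝ) ≤ mp * X / k := by
    simpa using hroot
  have s2 : ∑ y : (Σ x : NF2 d n, Code T m (selF2 z x)),
      (Nat.card {I // P (Sum.inr (Sum.inl y)) I} : ℝ) ≤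
      (d : ℝ) ^ n * ((T : ℝ) * (m : ℝ) ^ d) * (X / (k : ℝ) ^ d) := by
    refine (Finset.sum_le_sum fun y _ => hF y).trans ?_
    rw [Finset.sum_const, Finset.card_univ, nsmul_eq_mul]
    exact mul_le_mul_of_nonneg_right hcF (by positivity)
  have s3 : ∑ y : (Fin N × Σ x : NB2 d n, Code T m (selB2 z sb x)),
      (Nat.card {I // P (Sum.inr (Sum.inr y)) I} : ℝ) ≤
      N * (d : ℝ) ^ ((n + 1) ^ 2) * ((T : ℝ) * (m : ℝ) ^ d) ^ (n / 2) *
        (X / (k : ℝ) ^ (d * (n / 2))) := by
    refine (Finset.sum_le_sum fun y _ => hB y).trans ?_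
    rw [Finset.sum_const, Finset.card_univ, nsmul_eq_mul]
    exact mul_le_mul_of_nonneg_right hcB (by positivity)
  calc _ ≤ mp * X / k + ((d : ℝ) ^ n * ((T : ℝ) * (m : ℝ) ^ d) * (X / (k : ℝ) ^ d) +
        N * (d : ℝ) ^ ((n + 1) ^ 2) * ((T : ℝ) * (m : ℝ) ^ d) ^ (n / 2) *
        (X / (k : ℝ) ^ (d * (n / 2)))) :=
        add_le_add s1 (add_le_add s2 s3)
    _ = _ := by ring

end Pool.Agent.Helper6.IC
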