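import Pool.Agent.Helper6.IC.Final

/-!
Tree evaluation on the complete `d`-ary tree with `n + 1` levels and values in `[k]`, by deterministic
branching programs which inspect only a small part of the `M` input variables: for `k ≥ (A d) ^ (A n)`
the programs which query at most `M ^ (1 - ε)` of the variables of the nodes at even distance from the
root (all other queries are free) need `M ^ (ε n / 8)` states, even on average; recursion needs
`M ^ (n + 1)` states, and `M ^ 2` states with a pushdown store, and queries at most `M ^ ε` variables.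
-/

namespace Pool.Agent.Results.MP_4e849b_lc.InspectedCells

open Pool.Agent.Helper5.TreeExp Pool.Agent.Helper18.IC Pool.Agent.Helper6.IC

theorem result (ε : ℝ) (hε : 0 < ε) (hε1 : ε ≤ 1) :
    ∃ A : ℕ, ∀ d n k M : ℕ, 2 ≤ d → 1 ≤ n → (A * d) ^ (A * n) ≤ k → M = Nat.card (Var d k n) →
      (∀ (N p : ℕ) (φ : Fin k → Fin k) (B : BP (Var d k n) k N),
        (∀ y, Nat.card {x // φ x = y} ≤ p) → (N : ℝ) ≤ (M : ℝ) ^ (ε * n / 8) →
        (Nat.card {J : Inst d k n // B.Outputs (ask d k n J) (φ (value d k n J)) ∧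
          (Nat.card {u // Even (nodeOf n u).length ∧ Asked B (ask d k n J) u} : ℝ) ≤
            (M : ℝ) ^ (1 - ε)} : ℝ) ≤
          (p / k + (k : ℝ) ^ (-(ε / 3))) * Nat.card (Inst d k n)) ∧
      (∃ (N : ℕ) (B : BP (Var d k n) k N), N ≤ M ^ (n + 1) ∧
        ∀ J : Inst d k n, B.Outputs (ask d k n J) (value d k n J) ∧
          (Nat.card {u // Asked B (ask d k n J) u} : ℝ) ≤ (M : ℝ) ^ ε) ∧
      (∃ (S G : Type) (_ : Finite S) (_ : Finite G) (P : PBP (Var d k n) k S G),
        Nat.card S ≤ M ^ 2 ∧ Nat.card G ≤ M ∧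
        ∀ J : Inst d k n, P.Outputs (ask d k n J) (value d k n J) ∧
          (Nat.card {u // P.Asks (ask d k n J) u} : ℝ) ≤ (M : ℝ) ^ ε) :=
  inspected_cells hε hε1

end Pool.Agent.Results.MP_4e849b_lc.InspectedCells
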