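import Pool.Agent.Helper18.IC.Defs

/-!
# Programs for tree evaluation which inspect few cells: the selection of the nodes

`o` is a sequence of observations, `fun m => o (m + 1)` is the sequence after one step.
-/

namespace Pool.Agent.Helper6.IC

open Pool.Agent.Helper5.TreeExp Pool.Agent.Helper18.IC

variable {d k : ℕ} {W : Type}

theorem held_seen {o : ℕ → W} {p v : W} (h : Held o p v) : ∃ m, o m = p := by
  obtain ⟨m, h1, -⟩ := h
  exact ⟨m, h1⟩

/-- If `p` is observed and `v` is not held, `v` is observed. -/
theorem seen_of_not_held {o : ℕ → W} {p v : W} (hp : ∃ m, o m = p) (h : ¬ Held o p v) :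
    ∃ m, o m = v := by
  obtain ⟨m, hm⟩ := hp
  by_contra hc
  push Not at hc
  exact h ⟨m, hm, fun j _ => hc j⟩

theorem held_first {o : ℕ → W} {p v : W} (h0 : o 0 = p) (h : p ≠ v) : Held o p v :=
  ⟨0, h0, fun j hj => by
    rw [Nat.le_zero.1 hj, h0]
    exact h⟩

theorem held_prev {o : ℕ → W} {p v : W} (h0 : o 0 ≠ v) (h : Held (fun m => o (m + 1)) p v) :
    Held o p v := by
  obtain ⟨m, h1, h2⟩ := h
  refine ⟨m + 1, h1, fun j hj => ?_⟩
  rcases j with _ | j
  · exact h0
  · exact h2 j (by omega)

/-- All indexed nodes of the set are observed. -/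
def Seen (o : ℕ → W) : {n : ℕ} → (Var d k n → W) → Sel d n → (Var d k n → Fin k) → Prop
  | _, _, .empty, _ => True
  | _, _, .self, _ => True
  | n + 1, e, .node g s, I =>
      (g = true → ∃ m, o m = e (rv (n + 1) I)) ∧
      ∀ c, Seen o (fun u => e (Sum.inr (c, u))) (s c) (subI I c)

/-- For each table at most `T` entries are observed. -/
def Few (o : ℕ → W) (T : ℕ) : (n : ℕ) → (Var d k n → W) → Prop
  | 0, _ => True
  | n + 1, e => {a : Fin d → Fin k | ∃ m, o m = e (Sum.inl a)}.ncard ≤ T ∧
      ∀ c, Few o T n (fun u => e (Sum.inr (c, u)))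

/-- The internal nodes. -/
def NF (d : ℕ) : ℕ → Type
  | 0 => Empty
  | n + 1 => Option (Fin d × NF d n)

/-- The set of the children of an internal node. -/
def selF : {n : ℕ} → NF d n → Sel d n
  | 0, x => x.elim
  | _ + 1, none => .node true (fun _ => .self)
  | _ + 1, some y => .node false (fun c => if c = y.1 then selF y.2 else .empty)

/-- The choices along a path. -/
def NB (d : ℕ) : ℕ → Type
  | 0 => Empty
  | 1 => Unit
  | n + 2 => Fin d × NB d (n + 1) × Option (Fin d × NF d (n + 1))

/-- The sets for a path. -/
def selB : {n : ℕ} → NB d n → Sel d n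
  | 0, x => x.elim
  | 1, _ => .node true (fun _ => .self)
  | _ + 2, (c, x, none) => .node true (fun c' => if c' = c then selB x else .self)
  | _ + 2, (c, x, some y) =>
      if y.1 = c then .node true (fun c' => if c' = c then selB x else .self)
      else .node false (fun c' => if c' = c then selB x else if c' = y.1 then selF y.2 else .empty)

theorem claimA {o : ℕ → W} : (n : ℕ) → (e : Var d k n → W) → (I : Var d k n → Fin k) → (p : W) →
    (∃ m, o m = p) → ¬ Held o p (e (rv n I)) → ¬ Open o n e I p →
    ∃ x : NF d n, Cond o e (selF x) I ∧ Seen o e (selF x) I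
  | 0, e, I, p, hp, h1, h2 => absurd h1 h2
  | n + 1, e, I, p, hp, h1, h2 => by
    have hs := seen_of_not_held hp h1
    have h3 : ∀ c, ¬ Open o n (fun u => e (Sum.inr (c, u))) (subI I c) (e (rv (n + 1) I)) :=
      fun c hc => h2 ⟨h1, c, hc⟩
    by_cases h4 : ∀ c, Held o (e (rv (n + 1) I)) (e (Sum.inr (c, rv n (subI I c))))
    · exact ⟨none, ⟨fun c _ => h4 c, fun c => trivial⟩, ⟨fun _ => hs, fun c => trivial⟩⟩
    · push Not at h4
      obtain ⟨c, hc⟩ := h4
      obtain ⟨x, hx1, hx2⟩ := claimA n (fun u => e (Sum.inr (c, u))) (subI I c) _ hs hc (h3 c)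
      refine ⟨some (c, x), ⟨fun c' hc' => ?_, fun c' => ?_⟩, ⟨fun h => by simp at h, fun c' => ?_⟩⟩
      · exfalso
        by_cases h5 : c' = c
        · simp only [h5, if_true] at hc'
          rcases n with _ | n
          · exact x.elim
          · rcases x with _ | x <;> simp [selF] at hc'
        · simp [h5] at hc'
      · by_cases h5 : c' = c
        · subst h5
          simpa using hx1
        · simp [h5, Cond]
      · by_cases h5 : c' = c
        · subst h5
          simpa using hx2
        · simp [h5, Seen]

theorem selF_ne_self : {n : ℕ} → (x : NF d n) → selF x ≠ .self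
  | 0, x => x.elim
  | _ + 1, none => by simp [selF]
  | _ + 1, some _ => by simp [selF]

theorem selB_ne_self : {n : ℕ} → (x : NB d n) → selB x ≠ .self
  | 0, x => x.elim
  | 1, _ => by simp [selB]
  | _ + 2, (_, _, none) => by simp [selB]
  | _ + 2, (_, _, some _) => by
    rw [selB]
    split_ifs <;> simp

theorem claimB {o : ℕ → W} (n : ℕ) : 1 ≤ n → ∀ e : Var d k n → W, Function.Injective e →
    ∀ (I : Var d k n → Fin k) (p : W), (∃ m, o (m + 1) = p) → Open o n e I p →
    ¬ Open (fun m => o (m + 1)) n e I p →
    ∃ x : NB d n, Cond (fun m => o (m + 1)) e (selB x) I ∧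
      Seen (fun m => o (m + 1)) e (selB x) I := by
  induction n with
  | zero => exact fun hn => absurd hn (by omega)
  | succ n ih =>
    intro hn e he I p hp h1 h2
    obtain ⟨h3, c, hc⟩ := h1
    have hne : ∀ c' (u : Var d k n), e (rv (n + 1) I) ≠ e (Sum.inr (c', u)) := fun c' u h => by
      have := he h
      simp [rv] at this
    have hch : ¬ Held o (e (rv (n + 1) I)) (e (Sum.inr (c, rv n (subI I c)))) := by
      rcases n with _ | n
      · exact hc
      · exact hc.1
    have h0 : o 0 ≠ e (rv (n + 1) I) := fun h => hch (held_first h (hne _ _))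
    have h4 : ¬ Held (fun m => o (m + 1)) p (e (rv (n + 1) I)) := fun h => h3 (held_prev h0 h)
    have hs : ∃ m, o (m + 1) = e (rv (n + 1) I) := seen_of_not_held (o := fun m => o (m + 1)) hp h4
    have h5 : ∀ c', ¬ Open (fun m => o (m + 1)) n (fun u => e (Sum.inr (c', u))) (subI I c')
        (e (rv (n + 1) I)) := fun c' h => h2 ⟨h4, c', h⟩
    rcases n with _ | n
    · refine ⟨(), ⟨fun c' _ => ?_, fun c' => trivial⟩, ⟨fun _ => hs, fun c' => trivial⟩⟩
      exact not_not.1 (h5 c')
    · obtain ⟨x, hx1, hx2⟩ := ih (by omega) (fun u => e (Sum.inr (c, u)))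
        (fun u v h => (Prod.mk.inj (Sum.inr.inj (he h))).2) (subI I c) _ hs hc (h5 c)
      by_cases h6 : ∀ c', c' ≠ c → Held (fun m => o (m + 1)) (e (rv (n + 2) I))
          (e (Sum.inr (c', rv (n + 1) (subI I c'))))
      · refine ⟨(c, x, none), ⟨fun c' hc' => ?_, fun c' => ?_⟩, ⟨fun _ => hs, fun c' => ?_⟩⟩
        · by_cases h7 : c' = c
          · subst h7
            simp only [if_true] at hc'
            exact absurd hc' (selB_ne_self x)
          · exact h6 c' h7
        · by_cases h7 : c' = c
          · subst h7
            simpa using hx1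
          · simp [h7, Cond]
        · by_cases h7 : c' = c
          · subst h7
            simpa using hx2
          · simp [h7, Seen]
      · push Not at h6
        obtain ⟨c1, hc1, hc1'⟩ := h6
        obtain ⟨y, hy1, hy2⟩ := claimA (o := fun m => o (m + 1)) (n + 1)
          (fun u => e (Sum.inr (c1, u))) (subI I c1) _ hs hc1' (h5 c1)
        refine ⟨(c, x, some (c1, y)), ?_⟩
        rw [selB, if_neg hc1]
        refine ⟨⟨fun c' hc' => ?_, fun c' => ?_⟩, ⟨fun h => by simp at h, fun c' => ?_⟩⟩
        · exfalso
          by_cases h7 : c' = c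
          · subst h7
            simp only [if_true] at hc'
            exact selB_ne_self x hc'
          · by_cases h8 : c' = c1
            · subst h8
              simp only [if_neg h7, if_true] at hc'
              exact selF_ne_self y hc'
            · simp [h7, h8] at hc'
        · by_cases h7 : c' = c
          · subst h7
            simpa using hx1
          · by_cases h8 : c' = c1
            · subst h8
              simpa [h7] using hy1
            · simp [h7, h8, Cond]
        · by_cases h7 : c' = c
          · subst h7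
            simpa using hx2
          · by_cases h8 : c' = c1
            · subst h8
              simpa [h7] using hy2
            · simp [h7, h8, Seen]

end Pool.Agent.Helper6.IC
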