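import Pool.Agent.Helper6.IC.Claims
import Pool.Agent.Helper18.IC.Dec

/-!
# Programs for tree evaluation which inspect few cells: the numbers
-/

namespace Pool.Agent.Helper6.IC

open Pool.Agent.Helper5.TreeExp Pool.Agent.Helper18.IC

variable {d k : ℕ}

noncomputable instance fintypeNF : (n : ℕ) → Fintype (NF d n)
  | 0 => inferInstanceAs (Fintype Empty)
  | n + 1 => by
    have := fintypeNF n
    exact inferInstanceAs (Fintype (Option (Fin d × NF d n)))

noncomputable instance fintypeNB : (n : ℕ) → Fintype (NB d n)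
  | 0 => inferInstanceAs (Fintype Empty)
  | 1 => inferInstanceAs (Fintype Unit)
  | n + 2 => by
    have := fintypeNB (n + 1)
    exact inferInstanceAs (Fintype (Fin d × NB d (n + 1) × Option (Fin d × NF d (n + 1))))

theorem card_NF (hd : 2 ≤ d) (n : ℕ) : Nat.card (NF d n) + 1 ≤ d ^ n := by
  induction n with
  | zero => 
    have : Nat.card (NF d 0) = 0 := Nat.card_of_isEmpty (α := Empty)
    rw [this]
    simp
  | succ n ih =>
    have h1 : Nat.card (NF d (n + 1)) = d * Nat.card (NF d n) + 1 := by
      have : Nat.card (NF d (n + 1)) = Nat.card (Option (Fin d × NF d n)) := rfl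
      rw [this, Finite.card_option, Nat.card_prod, Nat.card_fin]
    rw [h1, pow_succ]
    calc d * Nat.card (NF d n) + 1 + 1 ≤ d * Nat.card (NF d n) + d := by omega
      _ = (Nat.card (NF d n) + 1) * d := by ring
      _ ≤ d ^ n * d := Nat.mul_le_mul_right _ ih

theorem card_NB (hd : 2 ≤ d) (n : ℕ) : Nat.card (NB d n) ≤ d ^ ((n + 1) ^ 2) := by
  rcases n with _ | n
  · have : Nat.card (NB d 0) = 0 := Nat.card_of_isEmpty (α := Empty)
    rw [this]
    exact Nat.zero_le _
  induction n with
  | zero =>
    have : Nat.card (NB d 1) = 1 := by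
      have : Nat.card (NB d 1) = Nat.card Unit := rfl
      rw [this]
      simp
    rw [show 0 + 1 = 1 from rfl, this]
    exact Nat.one_le_pow _ _ (by omega)
  | succ n ih =>
    have h1 : Nat.card (NB d (n + 2)) =
        d * (Nat.card (NB d (n + 1)) * (d * Nat.card (NF d (n + 1)) + 1)) := by
      have : Nat.card (NB d (n + 2)) =
        Nat.card (Fin d × NB d (n + 1) × Option (Fin d × NF d (n + 1))) := rfl
      rw [this, Nat.card_prod, Nat.card_prod, Finite.card_option, Nat.card_prod, Nat.card_fin]
    have h2 : d * Nat.card (NF d (n + 1)) + 1 ≤ d ^ (n + 2) := by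
      have h3 := card_NF hd (n + 1)
      calc d * Nat.card (NF d (n + 1)) + 1 ≤ d * Nat.card (NF d (n + 1)) + d := by omega
        _ = (Nat.card (NF d (n + 1)) + 1) * d := by ring
        _ ≤ d ^ (n + 1) * d := Nat.mul_le_mul_right _ h3
        _ = d ^ (n + 2) := by ring
    rw [show n + 1 + 1 = n + 2 from rfl, h1]
    calc d * (Nat.card (NB d (n + 1)) * (d * Nat.card (NF d (n + 1)) + 1))
        ≤ d * (d ^ ((n + 1 + 1) ^ 2) * d ^ (n + 2)) :=
          Nat.mul_le_mul_left _ (Nat.mul_le_mul ih h2)
      _ = d ^ ((n + 1 + 1) ^ 2 + (n + 2) + 1) := by ring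
      _ ≤ d ^ ((n + 2 + 1) ^ 2) := Nat.pow_le_pow_right (by omega) (by nlinarith)

theorem selF_WF : {n : ℕ} → (x : NF d n) → (selF x).WF
  | 0, x => x.elim
  | _ + 1, none => ⟨fun h => by simp at h, fun _ => trivial⟩
  | _ + 1, some y => by
    refine ⟨fun _ c => ?_, fun c => ?_⟩
    · by_cases h : c = y.1
      · simp only [h, if_true]
        exact selF_ne_self _
      · simp [h]
    · by_cases h : c = y.1
      · simp only [h, if_true]
        exact selF_WF _
      · simp [h, Sel.WF]

theorem selF_size : {n : ℕ} → (x : NF d n) → (selF x).size = d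
  | 0, x => x.elim
  | _ + 1, none => by simp [selF, Sel.size]
  | n + 1, some y => by
    simp only [selF, Sel.size]
    rw [Finset.sum_eq_single y.1]
    · simp [selF_size y.2]
    · intro c _ hc
      simp [hc, Sel.size]
    · simp

theorem selF_groups : {n : ℕ} → (x : NF d n) → (selF x).groups = 1
  | 0, x => x.elim
  | _ + 1, none => by simp [selF, Sel.groups]
  | n + 1, some y => by
    simp only [selF, Sel.groups]
    rw [Finset.sum_eq_single y.1]
    · simp [selF_groups y.2]
    · intro c _ hc
      simp [hc, Sel.groups]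
    · simp

theorem selB_WF : {n : ℕ} → (x : NB d n) → (selB x).WF
  | 0, x => x.elim
  | 1, _ => ⟨fun h => by simp at h, fun _ => trivial⟩
  | n + 2, (c, x, none) => by
    refine ⟨fun h => by simp at h, fun c' => ?_⟩
    by_cases h : c' = c
    · simp only [h, if_true]
      exact selB_WF x
    · simp [h, Sel.WF]
  | n + 2, (c, x, some y) => by
    rw [selB]
    split_ifs with hy
    · refine ⟨fun h => by simp at h, fun c' => ?_⟩
      by_cases h : c' = c
      · simp only [h, if_true]
        exact selB_WF x
      · simp [h, Sel.WF]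
    · refine ⟨fun _ c' => ?_, fun c' => ?_⟩
      · by_cases h : c' = c
        · simp only [h, if_true]
          exact selB_ne_self _
        · by_cases h2 : c' = y.1
          · simp only [if_neg h, if_pos h2]
            exact selF_ne_self _
          · simp [h, h2]
      · by_cases h : c' = c
        · simp only [h, if_true]
          exact selB_WF x
        · by_cases h2 : c' = y.1
          · simp only [if_neg h, if_pos h2]
            exact selF_WF _
          · simp [h, h2, Sel.WF]

private theorem sum_one {c : Fin d} (a : ℕ) (f : Fin d → ℕ) (h1 : f c = a)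
    (h2 : ∀ c', c' ≠ c → f c' = 1) : ∑ c', f c' = a + (d - 1) := by
  rw [← Finset.add_sum_erase _ _ (Finset.mem_univ c), h1,
    Finset.sum_congr rfl (fun x hx => h2 x (Finset.ne_of_mem_erase hx)), Finset.sum_const,
    Finset.card_erase_of_mem (Finset.mem_univ c), Finset.card_univ, Fintype.card_fin]
  simp

private theorem sum_two {c c1 : Fin d} (hc : c1 ≠ c) (a b : ℕ) (f : Fin d → ℕ) (h1 : f c = a)
    (h2 : f c1 = b) (h3 : ∀ c', c' ≠ c → c' ≠ c1 → f c' = 0) : ∑ c', f c' = a + b := by
  rw [← Finset.add_sum_erase _ _ (Finset.mem_univ c), h1,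
    ← Finset.add_sum_erase _ _ (Finset.mem_erase.2 ⟨hc, Finset.mem_univ c1⟩), h2,
    Finset.sum_eq_zero (fun x hx => h3 x (Finset.ne_of_mem_erase (Finset.mem_of_mem_erase hx))
      (Finset.ne_of_mem_erase hx))]
  rfl

theorem selB_size (hd : 1 ≤ d) : {n : ℕ} → (x : NB d n) → (d - 1) * n + 1 ≤ (selB x).size
  | 0, x => x.elim
  | 1, x => by
    have h : (selB x).size = d := by simp [selB, Sel.size]
    rw [h]
    omega
  | n + 2, (c, x, none) => by
    have ih := selB_size hd x
    have h1 : (selB (n := n + 2) (c, x, none)).size = (selB x).size + (d - 1) := by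
      refine sum_one (c := c) _ _ ?_ fun c' hc' => ?_
      · simp
      · simp [hc', Sel.size]
    rw [h1]
    calc (d - 1) * (n + 2) + 1 = ((d - 1) * (n + 1) + 1) + (d - 1) := by ring
      _ ≤ _ := Nat.add_le_add_right ih _
  | n + 2, (c, x, some y) => by
    have ih := selB_size hd x
    have h2 : (d - 1) * (n + 2) + 1 = ((d - 1) * (n + 1) + 1) + (d - 1) := by ring
    rw [selB]
    split_ifs with hy
    · have h1 : (Sel.node true (fun c' => if c' = c then selB x else .self)).size =
          (selB x).size + (d - 1) := by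
        refine sum_one (c := c) _ _ ?_ fun c' hc' => ?_
        · simp
        · simp [hc', Sel.size]
      rw [h1, h2]
      exact Nat.add_le_add_right ih _
    · have h1 : (Sel.node false (fun c' => if c' = c then selB x else
          if c' = y.1 then selF y.2 else .empty)).size = (selB x).size + d := by
        refine sum_two (c := c) (c1 := y.1) hy _ _ _ ?_ ?_ fun c' hc' hc2 => ?_
        · simp
        · simp [hy, selF_size]
        · simp [hc', hc2, Sel.size]
      rw [h1, h2]
      exact Nat.add_le_add ih (Nat.sub_le _ _)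

theorem selB_groups : {n : ℕ} → (x : NB d n) → (selB x).groups = n
  | 0, x => x.elim
  | 1, _ => by simp [selB, Sel.groups]
  | n + 2, (c, x, none) => by
    have ih := selB_groups x
    simp only [selB, Sel.groups, if_true]
    rw [Finset.sum_eq_single c]
    · simp [ih]
      omega
    · intro c' _ hc'
      simp [hc', Sel.groups]
    · simp
  | n + 2, (c, x, some y) => by
    have ih := selB_groups x
    rw [selB]
    split_ifs with hy
    · simp only [Sel.groups, if_true]
      rw [Finset.sum_eq_single c]
      · simp [ih]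
        omega
      · intro c' _ hc'
        simp [hc', Sel.groups]
      · simp
    · simp only [Sel.groups]
      rw [sum_two (c := c) (c1 := y.1) hy (n + 1) 1 _ ?_ ?_ fun c' hc' hc2 => ?_]
      · simp
      · simp [ih]
      · simp [hy, selF_groups]
      · simp [hc', hc2, Sel.groups]

theorem few_mono {W : Type} {T : ℕ} {o o' : ℕ → W} (h : ∀ m, ∃ m', o m' = o' m) :
    (n : ℕ) → (e : Var d k n → W) → Few o T n e → Few o' T n e
  | 0, _, _ => trivial
  | n + 1, e, hf => by
    refine ⟨le_trans (Set.ncard_le_ncard ?_ (Set.toFinite _)) hf.1, fun c =>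
      few_mono h n _ (hf.2 c)⟩
    rintro a ⟨m, hm⟩
    obtain ⟨m', hm'⟩ := h m
    exact ⟨m', hm'.trans hm⟩

theorem idx_exists {W : Type} {T : ℕ} {o : ℕ → W} : {n : ℕ} → (s : Sel d n) →
    (e : Var d k n → W) → Function.Injective e → (I : Var d k n → Fin k) → Few o T n e →
    Seen o e s I → ∃ i : IdxT T s, IdxOK o T e s I i
  | _, .empty, _, _, _, _, _ => ⟨(), trivial⟩
  | _, .self, _, _, _, _, _ => ⟨(), trivial⟩
  | n + 1, .node g s, e, he, I, hf, hs => by
    choose i hi using fun c => idx_exists (s c) (fun u => e (Sum.inr (c, u)))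
      (fun u v h => (Prod.mk.inj (Sum.inr.inj (he h))).2) (subI I c) (hf.2 c) (hs.2 c)
    cases g with
    | false => exact ⟨(⟨0, Nat.one_pos⟩, i), fun h => by simp at h, hi⟩
    | true =>
      classical
      have h1 := hs.1 rfl
      set M := Nat.find h1 with hM
      have h2 : o M = e (Sum.inl (args I)) := Nat.find_spec h1
      have h3 : ∀ m < M, o m ≠ e (Sum.inl (args I)) := fun m hm => Nat.find_min h1 hm
      have h4 : {a' : Fin d → Fin k | ∃ m < M, o m = e (Sum.inl a')}.ncard < T := by
        refine lt_of_lt_of_le (Set.ncard_lt_ncard ?_ (Set.toFinite _)) hf.1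
        refine ⟨?_, fun hsub => ?_⟩
        · rintro a ⟨m, -, hm⟩
          exact ⟨m, hm⟩
        · obtain ⟨m, hm, hm'⟩ := hsub (⟨M, h2⟩ : args I ∈ {a | ∃ m, o m = e (Sum.inl a)})
          exact h3 m hm hm'
      exact ⟨(⟨_, h4⟩, i), fun _ => ⟨M, h2, h3, rfl⟩, hi⟩

/-- Covering. -/
theorem cover {X Ω : Type} [Finite X] [Fintype Ω] (P : Ω → X → Prop) (Q : X → Prop)
    (h : ∀ x, Q x → ∃ w, P w x) : Nat.card {x // Q x} ≤ ∑ w, Nat.card {x // P w x} := by
  classical
  rw [← Nat.card_sigma]
  choose f hf using h
  refine Nat.card_le_card_of_injective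
    (fun x : {x // Q x} => (⟨f x.1 x.2, x.1, hf x.1 x.2⟩ : Σ w, {x // P w x})) ?_
  rintro ⟨x, hx⟩ ⟨y, hy⟩ hxy
  have h1 : (Sigma.snd (⟨f x hx, x, hf x hx⟩ : Σ w, {x // P w x})).1 =
      (Sigma.snd (⟨f y hy, y, hf y hy⟩ : Σ w, {x // P w x})).1 := by
    have h2 := congrArg (fun z : Σ w, {x // P w x} => z.2.1) hxy
    exact h2
  exact Subtype.ext h1

end Pool.Agent.Helper6.IC
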