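import Pool.Agent.Helper6.IC.Trans2
import Pool.Agent.Helper18.IC.Num5

/-!
# Tree evaluation by programs which inspect few cells
-/

namespace Pool.Agent.Helper6.IC

open Pool.Agent.Helper5.TreeExp Pool.Agent.Helper18.IC

variable {d k : ℕ}

theorem ncard_asked_le {n N : ℕ} (hd : 2 ≤ d) (B : BP (Var d k n) k N) (I : Var d k n → Fin k)
    (h : ∀ m u, obs B I B.start m = Sum.inl u → IsRight n I u) :
    Nat.card {u // Asked B I u} ≤ d ^ (n + 1) := by
  refine le_trans ?_ (card_right_le hd n I)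
  rw [← Nat.card_coe_set_eq]
  refine card_mono fun u hu => ?_
  obtain ⟨m, hm⟩ := (asked_iff B I u).1 hu
  exact h m u hm

theorem few_even {n N T : ℕ} (hn : n = 1) {φ : Fin k → Fin k} {B : BP (Var d k n) k N}
    {I : Var d k n → Fin k} (h : GoodPhi2 T φ B I) : GoodPhi T φ B I := by
  subst hn
  exact ⟨h.1, h.2, fun _ => trivial⟩

theorem inspected_cells {ε : ℝ} (hε : 0 < ε) (hε1 : ε ≤ 1) :
    ∃ A : ℕ, ∀ d n k M : ℕ, 2 ≤ d → 1 ≤ n → (A * d) ^ (A * n) ≤ k → M = Nat.card (Var d k n) →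
      (∀ (N mp : ℕ) (φ : Fin k → Fin k) (B : BP (Var d k n) k N),
        (∀ y, Nat.card {x // φ x = y} ≤ mp) → (N : ℝ) ≤ (M : ℝ) ^ (ε * n / 8) →
        (Nat.card {J : Inst d k n // B.Outputs (ask d k n J) (φ (value d k n J)) ∧
          (Nat.card {u // Even (nodeOf n u).length ∧ Asked B (ask d k n J) u} : ℝ) ≤
            (M : ℝ) ^ (1 - ε)} : ℝ) ≤
          (mp / k + (k : ℝ) ^ (-(ε / 3))) * Nat.card (Inst d k n)) ∧
      (∃ (N : ℕ) (B : BP (Var d k n) k N), N ≤ M ^ (n + 1) ∧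
        ∀ J : Inst d k n, B.Outputs (ask d k n J) (value d k n J) ∧
          (Nat.card {u // Asked B (ask d k n J) u} : ℝ) ≤ (M : ℝ) ^ ε) ∧
      (∃ (S G : Type) (_ : Finite S) (_ : Finite G) (P : PBP (Var d k n) k S G),
        Nat.card S ≤ M ^ 2 ∧ Nat.card G ≤ M ∧
        ∀ J : Inst d k n, P.Outputs (ask d k n J) (value d k n J) ∧
          (Nat.card {u // P.Asks (ask d k n J) u} : ℝ) ≤ (M : ℝ) ^ ε) := by
  obtain ⟨A, hA, hnum⟩ := num_final hε hε1
  refine ⟨A, fun d n k M hd hn hk hM => ?_⟩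
  obtain ⟨h1, h2⟩ := hnum d n k hd hn hk
  have hAd : 2 ≤ A * d := by nlinarith
  have hk2 : 2 ≤ k := by
    refine le_trans ?_ hk
    calc 2 ≤ A * d := hAd
      _ = (A * d) ^ 1 := (pow_one _).symm
      _ ≤ (A * d) ^ (A * n) := Nat.pow_le_pow_right (by omega) (by nlinarith)
  have hk1 : 1 ≤ k := by omega
  have hM1 : 1 ≤ M := by
    rw [hM]
    exact card_var_pos n hk1
  have hM2 : M ≤ d ^ (n + 1) * k ^ d := by
    rw [hM]
    exact card_var_le hd hk1 n
  have hM3 : k ^ d ≤ M := by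
    obtain ⟨n', rfl⟩ : ∃ n', n = n' + 1 := ⟨n - 1, by omega⟩
    rw [hM, card_var_succ]
    exact Nat.le_add_right _ _
  obtain ⟨h3, h4, h5⟩ := h2 M hM3
  refine ⟨?_, ?_, ?_⟩
  · intro N mp φ B hφ hN
    set T := ⌊(M : ℝ) ^ (1 - ε)⌋₊ with hT
    have hT1 : (T : ℝ) ≤ (M : ℝ) ^ (1 - ε) := Nat.floor_le (by positivity)
    have hle := good_le (T := T) φ B ((M : ℝ) ^ (1 - ε)) (fun a ha => Nat.le_floor ha)
    have hle' : (Nat.card {J : Inst d k n // B.Outputs (ask d k n J) (φ (value d k n J)) ∧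
          (Nat.card {u // Even (nodeOf n u).length ∧ Asked B (ask d k n J) u} : ℝ) ≤
            (M : ℝ) ^ (1 - ε)} : ℝ) ≤
        Nat.card {I : Var d k n → Fin k // GoodPhi2 T φ B I} := by exact_mod_cast hle
    refine hle'.trans ?_
    rw [card_inst]
    have hX0 : (0 : ℝ) ≤ Nat.card (Var d k n → Fin k) := Nat.cast_nonneg _
    obtain ⟨h6, h7⟩ := h1 N T M hM1 hM2 hN hT1
    rcases Nat.lt_or_ge n 2 with hn2 | hn2
    · have hn1 : n = 1 := by omega
      have h8 : (Nat.card {I : Var d k n → Fin k // GoodPhi2 T φ B I} : ℝ) ≤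
          Nat.card {I : Var d k n → Fin k // GoodPhi T φ B I} := by
        exact_mod_cast card_mono fun I hI => few_even hn1 hI
      refine h8.trans ((main_bound_phi hd hk1 hn φ hφ B).trans ?_)
      refine mul_le_mul_of_nonneg_right ?_ hX0
      have h9 := h6 hn1
      linarith
    · obtain ⟨m, hm1, hm2⟩ := h7 hn2
      refine (phi_bound (T := T) hd hk1 hn2 hm1 φ hφ B).trans ?_
      refine mul_le_mul_of_nonneg_right ?_ hX0
      linarith
  · obtain ⟨N, B, hN, hB⟩ := upper (by omega : 0 < d) (by omega : 0 < k) n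
    refine ⟨N, B, hN.trans h5, fun J => ?_⟩
    obtain ⟨h6, h7⟩ := hB (ask d k n J)
    rw [value_eq]
    refine ⟨h6, le_trans ?_ h3⟩
    exact_mod_cast ncard_asked_le hd B _ h7
  · obtain ⟨S, G, hS, hG, P, hS', hG', hP⟩ := pushdown hd hk2 n
    refine ⟨S, G, hS, hG, P, hS'.trans h4, hG'.trans hM3, fun J => ?_⟩
    obtain ⟨h6, h7⟩ := hP (ask d k n J)
    rw [value_eq]
    refine ⟨h6, le_trans ?_ h3⟩
    have h8 : Nat.card {u // P.Asks (ask d k n J) u} ≤ d ^ (n + 1) := by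
      refine le_trans ?_ (card_right_le hd n (ask d k n J))
      rw [← Nat.card_coe_set_eq]
      exact card_mono fun u hu => h7 u hu
    exact_mod_cast h8

end Pool.Agent.Helper6.IC
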