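import Pool.Agent.Helper6.IC.Count

/-!
# Programs for tree evaluation which inspect few cells: the output without the right variable of the root
-/

namespace Pool.Agent.Helper6.IC

open Pool.Agent.Helper5.TreeExp Pool.Agent.Helper18.IC

variable {d k : ℕ}

/-- An enumeration of the fibres. -/
theorem exists_rank {m : ℕ} (φ : Fin k → Fin k) (hφ : ∀ x, Nat.card {y // φ y = x} ≤ m) :
    ∃ r : Fin k → Fin m, ∀ x y, φ x = φ y → r x = r y → x = y := by
  have h1 : ∀ x, ∃ f : {y // φ y = x} → Fin m, Function.Injective f := fun x => by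
    have h2 : Fintype.card {y // φ y = x} ≤ Fintype.card (Fin m) := by
      rw [← Nat.card_eq_fintype_card, Fintype.card_fin]
      exact hφ x
    obtain ⟨f⟩ := Function.Embedding.nonempty_of_card_le h2
    exact ⟨f, f.injective⟩
  choose f hf using h1
  refine ⟨fun y => f (φ y) ⟨y, rfl⟩, fun x y hxy h => ?_⟩
  have h2 : ∀ (a b : Fin k) (u : {y // φ y = a}) (v : {y // φ y = b}), a = b → f a u = f b v →
      u.1 = v.1 := by
    rintro a b u v rfl huv
    rw [hf a huv]
  exact h2 _ _ _ _ hxy h

/-- The output is found without reading the right variable of the root. -/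
theorem root_bound_phi {n N m : ℕ} (B : BP (Var d k n) k N) (q : Fin N) (φ : Fin k → Fin k)
    (hφ : ∀ x, Nat.card {y // φ y = x} ≤ m) :
    Nat.card {I : Var d k n → Fin k //
      Held (obs B I q) (Sum.inr (φ (valI n I))) (Sum.inl (rv n I))} * k ≤
      m * Nat.card (Var d k n → Fin k) := by
  obtain ⟨r, hr⟩ := exists_rank φ hφ
  have hcov := cover (fun (b : Fin m) (I : Var d k n → Fin k) =>
    Held (obs B I q) (Sum.inr (φ (valI n I))) (Sum.inl (rv n I)) ∧ r (valI n I) = b)
    (fun I => Held (obs B I q) (Sum.inr (φ (valI n I))) (Sum.inl (rv n I)))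
    (fun I hI => ⟨r (valI n I), hI, rfl⟩)
  have hone : ∀ b : Fin m, Nat.card {I : Var d k n → Fin k //
      Held (obs B I q) (Sum.inr (φ (valI n I))) (Sum.inl (rv n I)) ∧ r (valI n I) = b} * k ≤
      Nat.card (Var d k n → Fin k) := by
    intro b
    have h0 := card_of_rel (k := k) (Sel.self : Sel d n)
      (fun I => Held (obs B I q) (Sum.inr (φ (valI n I))) (Sum.inl (rv n I)) ∧ r (valI n I) = b) ?_
    · have hsz : (Sel.self : Sel d n).size = 1 := rfl
      rw [hsz, pow_one] at h0
      exact h0
    · rintro I I' ⟨⟨m, hm, hm1⟩, hb⟩ ⟨⟨m', hm', hm1'⟩, hb'⟩ hrel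
      have hag : ∀ M, (B.step I)^[M] q = (B.step I')^[M] q := by
        refine runs_agree B q fun M hM u hu => ?_
        by_cases hu' : u = rv n I
        · exfalso
          rw [hu'] at hu
          have hmM : m ≤ M := by
            by_contra hcon
            exact hm1 M (by omega) hu
          have := obs_stay B hm hmM
          rw [this] at hu
          exact absurd hu (by simp)
        · exact hrel.2 u hu'
      have ho : obs B I q = obs B I' q := by
        funext m
        unfold obs
        rw [hag m]
      rw [← ho] at hm'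
      have h1 := obs_stay B hm (Nat.le_add_right m m')
      have h2 := obs_stay B hm' (Nat.le_add_left m' m)
      rw [h1] at h2
      have hv : valI n I = valI n I' :=
        hr _ _ (Sum.inr_injective h2) (hb.trans hb'.symm)
      funext u
      by_cases hu' : u = rv n I
      · rw [hu', ← valI_eq n I, hv, valI_eq n I', hrel.1]
      · exact hrel.2 u hu'
  calc _ ≤ (∑ b : Fin m, Nat.card {I : Var d k n → Fin k //
        Held (obs B I q) (Sum.inr (φ (valI n I))) (Sum.inl (rv n I)) ∧ r (valI n I) = b}) * k :=
        Nat.mul_le_mul_right _ hcov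
    _ = ∑ b : Fin m, Nat.card {I : Var d k n → Fin k //
        Held (obs B I q) (Sum.inr (φ (valI n I))) (Sum.inl (rv n I)) ∧ r (valI n I) = b} * k :=
        Finset.sum_mul _ _ _
    _ ≤ ∑ _b : Fin m, Nat.card (Var d k n → Fin k) := Finset.sum_le_sum fun b _ => hone b
    _ = _ := by simp

end Pool.Agent.Helper6.IC
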