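import Pool.Agent.Helper6.IC.BSum

/-!
# Programs for tree evaluation which inspect few cells: instances as in `Helper5.TreeExp.Defs`
-/

namespace Pool.Agent.Helper6.IC

open Pool.Agent.Helper5.TreeExp Pool.Agent.Helper18.IC

variable {d k : ℕ}

theorem ask_injective : (n : ℕ) → Function.Injective (ask d k n)
  | 0 => fun a b h => congrFun h ()
  | n + 1 => by
    rintro ⟨f, S⟩ ⟨f', S'⟩ h
    have h1 : f = f' := funext fun x => congrFun h (Sum.inl x)
    have h2 : S = S' := funext fun c => ask_injective n (funext fun u => congrFun h (Sum.inr (c, u)))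
    rw [h1, h2]

theorem ask_surjective : (n : ℕ) → Function.Surjective (ask d k n)
  | 0 => fun I => ⟨I (), funext fun _ => rfl⟩
  | n + 1 => fun I => by
    choose S hS using fun c => ask_surjective n (subI I c)
    refine ⟨(fun x => I (Sum.inl x), S), funext fun u => ?_⟩
    rcases u with x | ⟨c, u⟩
    · rfl
    · exact congrFun (hS c) u

theorem value_eq : (n : ℕ) → (J : Inst d k n) → value d k n J = valI n (ask d k n J)
  | 0, _ => rfl
  | n + 1, J => by
    exact congrArg J.1 (funext fun c => value_eq n (J.2 c))

/-- The instances and the functions on the variables. -/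
noncomputable def instEquiv (d k n : ℕ) : Inst d k n ≃ (Var d k n → Fin k) :=
  Equiv.ofBijective (ask d k n) ⟨ask_injective n, ask_surjective n⟩

theorem card_inst (n : ℕ) : Nat.card (Inst d k n) = Nat.card (Var d k n → Fin k) :=
  Nat.card_congr (instEquiv d k n)

theorem card_inst_of (n : ℕ) (P : (Var d k n → Fin k) → Prop) :
    Nat.card {J : Inst d k n // P (ask d k n J)} = Nat.card {I : Var d k n → Fin k // P I} :=
  Nat.card_congr ((instEquiv d k n).subtypeEquiv fun _ => Iff.rfl)

theorem outputs_iff {V : Type} {N : ℕ} (B : BP V k N) (I : V → Fin k) (a : Fin k) :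
    B.Outputs I a ↔ ∃ m, obs B I B.start m = Sum.inr a := by
  refine exists_congr fun m => ?_
  unfold obs see
  cases h : B.act ((B.step I)^[m] B.start) with
  | inl t => simp
  | inr b => simp

end Pool.Agent.Helper6.IC
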