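import Pool.Agent.Helper6.IC.Trans
import Pool.Agent.Helper18.IC.Cor
import Pool.Agent.Helper18.IC.Lin
import Pool.Agent.Helper18.IC.Nd

/-!
# Programs for tree evaluation which inspect few cells: counting queried variables
-/

namespace Pool.Agent.Helper6.IC

open Pool.Agent.Helper5.TreeExp Pool.Agent.Helper18.IC

variable {d k : ℕ}

theorem asked_iff {V : Type} {N : ℕ} (B : BP V k N) (I : V → Fin k) (v : V) :
    Asked B I v ↔ ∃ m, obs B I B.start m = Sum.inl v := by
  refine exists_congr fun m => ?_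
  unfold obs see
  cases h : B.act ((B.step I)^[m] B.start) with
  | inl t =>
    simp only [Sum.elim_inl, Sum.inl.injEq]
    constructor
    · rintro ⟨next, h1⟩
      rw [h1]
    · intro h1
      exact ⟨t.2, by rw [← h1]⟩
  | inr b => simp

/-- From the number of the observed variables of nodes at even distance. -/
theorem few2_of_total {W : Type} {T : ℕ} {o : ℕ → W} : (n : ℕ) → (e : Var d k n → W) →
    {u : Var d k n | Even (nodeOf n u).length ∧ ∃ m, o m = e u}.ncard ≤ T → Few2 o T n e
  | 0, _, _ => trivial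
  | 1, e, h => by
    refine le_trans ?_ h
    refine Set.ncard_le_ncard_of_injOn
      (fun a => (Sum.inl a : (Fin d → Fin k) ⊕ (Fin d × Var d k 0)))
      (fun a ha => ⟨by simp [nodeOf], ha⟩) ?_ (Set.toFinite _)
    intro a _ a' _ haa
    exact Sum.inl_injective haa
  | n + 2, e, h => by
    refine ⟨?_, fun i c => few2_of_total n _ ?_⟩
    · refine le_trans ?_ h
      refine Set.ncard_le_ncard_of_injOn
        (fun a => (Sum.inl a : (Fin d → Fin k) ⊕ (Fin d × Var d k (n + 1))))
        (fun a ha => ⟨by simp [nodeOf], ha⟩) ?_ (Set.toFinite _)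
      intro a _ a' _ haa
      exact Sum.inl_injective haa
    · refine le_trans ?_ h
      refine Set.ncard_le_ncard_of_injOn
        (fun u => (Sum.inr (i, Sum.inr (c, u)) : (Fin d → Fin k) ⊕ (Fin d × Var d k (n + 1))))
        ?_ ?_ (Set.toFinite _)
      · rintro u ⟨hu, hu'⟩
        refine ⟨?_, hu'⟩
        have h1 : nodeOf (d := d) (k := k) (n + 2) (Sum.inr (i, Sum.inr (c, u))) =
            i :: c :: nodeOf n u := rfl
        rw [h1, List.length_cons, List.length_cons]
        obtain ⟨r, hr⟩ := hu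
        exact ⟨r + 1, by omega⟩
      · intro a _ a' _ haa
        exact (Prod.mk.inj (Sum.inr_injective (Prod.mk.inj (Sum.inr_injective haa)).2)).2

/-- The good instances. -/
theorem good_le {n N T : ℕ} (φ : Fin k → Fin k) (B : BP (Var d k n) k N) (x : ℝ)
    (hT : ∀ a : ℕ, (a : ℝ) ≤ x → a ≤ T) :
    Nat.card {J : Inst d k n // B.Outputs (ask d k n J) (φ (value d k n J)) ∧
      (Nat.card {u // Even (nodeOf n u).length ∧ Asked B (ask d k n J) u} : ℝ) ≤ x} ≤
    Nat.card {I : Var d k n → Fin k // GoodPhi2 T φ B I} := by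
  rw [← card_inst_of n (fun I => GoodPhi2 T φ B I)]
  have hfin : Finite (Inst d k n) := Finite.of_equiv _ (instEquiv d k n).symm
  refine card_mono fun J hJ => ⟨?_, ?_⟩
  · rw [← value_eq, ← outputs_iff]
    exact hJ.1
  · refine few2_of_total n Sum.inl ?_
    have h1 : {u : Var d k n | Even (nodeOf n u).length ∧
        ∃ m, obs B (ask d k n J) B.start m = Sum.inl u}.ncard =
        Nat.card {u // Even (nodeOf n u).length ∧ Asked B (ask d k n J) u} := by
      rw [← Nat.card_coe_set_eq]
      refine Nat.card_congr (Equiv.subtypeEquivRight fun u => ?_)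
      exact and_congr Iff.rfl (asked_iff B _ u).symm
    rw [h1]
    exact hT _ hJ.2

theorem good_split {n N T m : ℕ} (φ : Fin k → Fin k) (B : BP (Var d k n) k N) :
    Nat.card {I : Var d k n → Fin k // GoodPhi2 T φ B I} ≤
    Nat.card {I : Var d k n → Fin k // GoodPhi2 T φ B I ∧ Lines m n I} +
    Nat.card {I : Var d k n → Fin k // ¬ Lines m n I} := by
  classical
  have h := cover (fun (b : Bool) (I : Var d k n → Fin k) =>
    if b then GoodPhi2 T φ B I ∧ Lines m n I else ¬ Lines m n I) (fun I => GoodPhi2 T φ B I)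
    (fun I hI => by
      by_cases hl : Lines m n I
      · exact ⟨true, by simpa using ⟨hI, hl⟩⟩
      · exact ⟨false, by simpa using hl⟩)
  simpa using h

/-- The bound with blocks of two levels for all instances. -/
theorem phi_bound {n N T m mp : ℕ} (hd : 2 ≤ d) (hk : 1 ≤ k) (hn : 2 ≤ n) (hm : 1 ≤ m)
    (φ : Fin k → Fin k) (hφ : ∀ x, Nat.card {y // φ y = x} ≤ mp) (B : BP (Var d k n) k N) :
    (Nat.card {I : Var d k n → Fin k // GoodPhi2 T φ B I} : ℝ) ≤
      (mp / (k : ℝ) + ((d : ℝ) ^ n * ((T : ℝ) * (m : ℝ) ^ d) / (k : ℝ) ^ d +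
        N * (d : ℝ) ^ ((n + 1) ^ 2) * ((T : ℝ) * (m : ℝ) ^ d) ^ (n / 2) /
          (k : ℝ) ^ (d * (n / 2)) + (d : ℝ) ^ (n + 1) * (k : ℝ) ^ (d + 1) / (m + 1).factorial)) *
      Nat.card (Var d k n → Fin k) := by
  have h1 : (Nat.card {I : Var d k n → Fin k // GoodPhi2 T φ B I} : ℝ) ≤
      (Nat.card {I : Var d k n → Fin k // GoodPhi2 T φ B I ∧ Lines m n I} : ℝ) +
      (Nat.card {I : Var d k n → Fin k // ¬ Lines m n I} : ℝ) := by
    exact_mod_cast good_split φ B
  have h2 := block_bound (T := T) hd hk hn hm φ hφ B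
  have hf : (0 : ℝ) < (m + 1).factorial := by exact_mod_cast Nat.factorial_pos _
  have h3 : (Nat.card {I : Var d k n → Fin k // ¬ Lines m n I} : ℝ) ≤
      (d : ℝ) ^ (n + 1) * (k : ℝ) ^ (d + 1) / (m + 1).factorial *
        Nat.card (Var d k n → Fin k) := by
    rw [div_mul_eq_mul_div, le_div_iff₀ hf]
    exact_mod_cast lines_bound (n := n) hd hk m
  calc _ ≤ _ := h1
    _ ≤ _ := add_le_add h2 h3
    _ = _ := by ring

end Pool.Agent.Helper6.IC
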